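import Mathlib

/-!
# Numerics for all large g
-/

set_option autoImplicit false

namespace Pool.LarProb

open Filter Topology

theorem ev_ge (C : ℝ) : ∀ᶠ g : ℕ in atTop, C ≤ (g : ℝ) :=
  (tendsto_natCast_atTop_atTop (R := ℝ)).eventually_ge_atTop C

theorem ev_pow_exp (k : ℕ) {c : ℝ} (hc : 0 < c) :
    Tendsto (fun g : ℕ => (g : ℝ) ^ k * Real.exp (-(c * g))) atTop (𝓝 0) := by
  have h1 : Tendsto (fun x : ℝ => x ^ k * Real.exp (-x)) atTop (𝓝 0) :=
    Real.tendsto_pow_mul_exp_neg_atTop_nhds_zero k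
  have h2 : Tendsto (fun g : ℕ => c * (g : ℝ)) atTop atTop :=
    (tendsto_natCast_atTop_atTop (R := ℝ)).const_mul_atTop hc
  have h3 := (h1.comp h2).const_mul ((c ^ k)⁻¹)
  rw [mul_zero] at h3
  refine h3.congr (fun g => ?_)
  simp only [Function.comp]
  rw [mul_pow]
  have : (c ^ k) ≠ 0 := (pow_pos hc k).ne'
  field_simp

/-- `C g^k exp(-c g) ≤ ε` for all large `g` -/
theorem ev_exp_small (k : ℕ) {c C e : ℝ} (hc : 0 < c) (he : 0 < e) :
    ∀ᶠ g : ℕ in atTop, C * (g : ℝ) ^ k * Real.exp (-(c * g)) ≤ e := by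
  have h := (ev_pow_exp k hc).const_mul C
  rw [mul_zero] at h
  have h2 := h.eventually (Iic_mem_nhds he)
  filter_upwards [h2] with g hg
  have : C * (g : ℝ) ^ k * Real.exp (-(c * g)) = C * ((g : ℝ) ^ k * Real.exp (-(c * g))) := by
    ring
  rw [this]
  exact hg

/-- `C log g ≤ c g` for all large `g` -/
theorem ev_log {C c : ℝ} (hc : 0 < c) : ∀ᶠ g : ℕ in atTop, C * Real.log g ≤ c * g := by
  have h1 : Tendsto (fun x : ℝ => Real.log x / x) atTop (𝓝 0) := by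
    have := Real.tendsto_pow_log_div_mul_add_atTop 1 0 1 one_ne_zero
    simpa using this
  have h2 : Tendsto (fun g : ℕ => Real.log (g : ℝ) / (g : ℝ)) atTop (𝓝 0) :=
    h1.comp (tendsto_natCast_atTop_atTop (R := ℝ))
  have h3 := h2.const_mul C
  rw [mul_zero] at h3
  have h4 := h3.eventually (Iic_mem_nhds hc)
  filter_upwards [h4, eventually_gt_atTop 0] with g hg hg0
  have hg1 : (0 : ℝ) < g := by exact_mod_cast hg0
  have h5 : C * (Real.log g / g) ≤ c := hg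
  have h6 : C * Real.log g / g ≤ c := by rw [mul_div_assoc]; exact h5
  rwa [div_le_iff₀ hg1] at h6

/-- `log g ≤ g`-type bounds after multiplication with powers: `C g^i log g ≤ c g^j`, `i < j` -/
theorem ev_pow_log {C c : ℝ} (hc : 0 < c) (i j : ℕ) (hij : i < j) :
    ∀ᶠ g : ℕ in atTop, C * (g : ℝ) ^ i * Real.log g ≤ c * (g : ℝ) ^ j := by
  filter_upwards [ev_log (C := C) hc, eventually_ge_atTop 1] with g hg hg1
  have hgr : (1 : ℝ) ≤ g := by exact_mod_cast hg1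
  have h1 : C * (g : ℝ) ^ i * Real.log g = (g : ℝ) ^ i * (C * Real.log g) := by ring
  have h2 : (g : ℝ) ^ i * (C * Real.log g) ≤ (g : ℝ) ^ i * (c * g) :=
    mul_le_mul_of_nonneg_left hg (by positivity)
  have h3 : (g : ℝ) ^ (i + 1) ≤ (g : ℝ) ^ j := pow_le_pow_right₀ hgr hij
  rw [h1]
  calc (g : ℝ) ^ i * (C * Real.log g) ≤ (g : ℝ) ^ i * (c * g) := h2
    _ = c * (g : ℝ) ^ (i + 1) := by ring
    _ ≤ c * (g : ℝ) ^ j := mul_le_mul_of_nonneg_left h3 hc.le

/-- `C g^i ≤ c g^j` for all large `g` if `i < j` -/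
theorem ev_pow_le {C c : ℝ} (hc : 0 < c) (i j : ℕ) (hij : i < j) :
    ∀ᶠ g : ℕ in atTop, C * (g : ℝ) ^ i ≤ c * (g : ℝ) ^ j := by
  filter_upwards [ev_ge (C / c), eventually_ge_atTop 1] with g hg hg1
  have hgr : (1 : ℝ) ≤ g := by exact_mod_cast hg1
  have h1 : C ≤ c * g := by
    rw [div_le_iff₀ hc] at hg
    linarith
  calc C * (g : ℝ) ^ i ≤ (c * g) * (g : ℝ) ^ i :=
        mul_le_mul_of_nonneg_right h1 (by positivity)
    _ = c * (g : ℝ) ^ (i + 1) := by ring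
    _ ≤ c * (g : ℝ) ^ j :=
        mul_le_mul_of_nonneg_left (pow_le_pow_right₀ hgr hij) hc.le

end Pool.LarProb
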