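import Mathlib

/-!
# Finite probability library for the Larman project (MP_a9ba8c_co)

All probability is a finite weighted sum.  No measure theory.
-/

set_option autoImplicit false

namespace Pool.LarProb

open Finset

/-! ## indicators of propositions -/

open Classical in
/-- the indicator of a proposition, as a real number -/
noncomputable def ind (S : Prop) : ℝ := if S then 1 else 0

theorem ind_true {S : Prop} (h : S) : ind S = 1 := if_pos h
theorem ind_false {S : Prop} (h : ¬ S) : ind S = 0 := if_neg h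

theorem ind_nonneg (S : Prop) : 0 ≤ ind S := by
  by_cases h : S
  · rw [ind_true h]; exact zero_le_one
  · rw [ind_false h]

theorem ind_le_one (S : Prop) : ind S ≤ 1 := by
  by_cases h : S
  · rw [ind_true h]
  · rw [ind_false h]; exact zero_le_one

theorem ind_mono {S T : Prop} (h : S → T) : ind S ≤ ind T := by
  by_cases hS : S
  · rw [ind_true hS, ind_true (h hS)]
  · rw [ind_false hS]; exact ind_nonneg T

theorem ind_congr {S T : Prop} (h : S ↔ T) : ind S = ind T :=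
  le_antisymm (ind_mono h.1) (ind_mono h.2)

theorem ind_and (S T : Prop) : ind (S ∧ T) = ind S * ind T := by
  by_cases hS : S <;> by_cases hT : T <;> simp [ind, hS, hT]

theorem ind_not (S : Prop) : ind (¬ S) = 1 - ind S := by
  by_cases hS : S <;> simp [ind, hS]

theorem ind_or_le (S T : Prop) : ind (S ∨ T) ≤ ind S + ind T := by
  by_cases hS : S <;> by_cases hT : T <;> simp [ind, hS, hT]

theorem ind_mul_self (S : Prop) : ind S * ind S = ind S := by
  by_cases hS : S <;> simp [ind, hS]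

theorem ind_exists_le {J : Type*} (s : Finset J) (S : J → Prop) :
    ind (∃ j ∈ s, S j) ≤ ∑ j ∈ s, ind (S j) := by
  by_cases h : ∃ j ∈ s, S j
  · rw [ind_true h]
    obtain ⟨j, hj, hS⟩ := h
    calc (1 : ℝ) = ind (S j) := (ind_true hS).symm
      _ ≤ _ := Finset.single_le_sum (f := fun j => ind (S j))
        (fun i _ => ind_nonneg (S i)) hj
  · rw [ind_false h]
    exact Finset.sum_nonneg (fun i _ => ind_nonneg (S i))

theorem ind_forall {J : Type*} (s : Finset J) (S : J → Prop) :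
    ind (∀ j ∈ s, S j) = ∏ j ∈ s, ind (S j) := by
  by_cases h : ∀ j ∈ s, S j
  · rw [ind_true h]
    symm
    exact Finset.prod_eq_one (fun j hj => ind_true (h j hj))
  · rw [ind_false h]
    push Not at h
    obtain ⟨j, hj, hS⟩ := h
    symm
    exact Finset.prod_eq_zero hj (ind_false hS)

/-! ## general finite probability spaces -/

section General

variable {Ω : Type*} [Fintype Ω]

/-- a finite probability weight -/
structure IsP (p : Ω → ℝ) : Prop where
  nonneg : ∀ ω, 0 ≤ p ω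
  sum_one : ∑ ω, p ω = 1

/-- expectation -/
noncomputable def Ex (p : Ω → ℝ) (F : Ω → ℝ) : ℝ := ∑ ω, p ω * F ω

/-- probability of an event -/
noncomputable def Pr (p : Ω → ℝ) (S : Ω → Prop) : ℝ := Ex p (fun ω => ind (S ω))

theorem Ex_add (p F G : Ω → ℝ) : Ex p (fun ω => F ω + G ω) = Ex p F + Ex p G := by
  simp only [Ex, mul_add, Finset.sum_add_distrib]

theorem Ex_sub (p F G : Ω → ℝ) : Ex p (fun ω => F ω - G ω) = Ex p F - Ex p G := by
  simp only [Ex, mul_sub, Finset.sum_sub_distrib]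

theorem Ex_neg (p F : Ω → ℝ) : Ex p (fun ω => - F ω) = - Ex p F := by
  simp only [Ex, mul_neg, Finset.sum_neg_distrib]

theorem Ex_mul_left (p F : Ω → ℝ) (c : ℝ) : Ex p (fun ω => c * F ω) = c * Ex p F := by
  simp only [Ex, Finset.mul_sum]
  exact Finset.sum_congr rfl (fun ω _ => by ring)

theorem Ex_mul_right (p F : Ω → ℝ) (c : ℝ) : Ex p (fun ω => F ω * c) = Ex p F * c := by
  simp only [Ex, Finset.sum_mul]
  exact Finset.sum_congr rfl (fun ω _ => by ring)

theorem Ex_sum {J : Type*} (p : Ω → ℝ) (s : Finset J) (F : J → Ω → ℝ) :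
    Ex p (fun ω => ∑ j ∈ s, F j ω) = ∑ j ∈ s, Ex p (F j) := by
  simp only [Ex, Finset.mul_sum]
  exact Finset.sum_comm

theorem Ex_const {p : Ω → ℝ} (hp : IsP p) (c : ℝ) : Ex p (fun _ => c) = c := by
  simp only [Ex, ← Finset.sum_mul, hp.sum_one, one_mul]

theorem Ex_zero (p : Ω → ℝ) : Ex p (fun _ => 0) = 0 := by simp [Ex]

theorem Ex_mono {p : Ω → ℝ} (hp : IsP p) {F G : Ω → ℝ} (h : ∀ ω, F ω ≤ G ω) :
    Ex p F ≤ Ex p G :=
  Finset.sum_le_sum (fun ω _ => mul_le_mul_of_nonneg_left (h ω) (hp.nonneg ω))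

theorem Ex_congr {p : Ω → ℝ} {F G : Ω → ℝ} (h : ∀ ω, F ω = G ω) : Ex p F = Ex p G := by
  rw [funext h]

theorem Ex_nonneg {p : Ω → ℝ} (hp : IsP p) {F : Ω → ℝ} (h : ∀ ω, 0 ≤ F ω) : 0 ≤ Ex p F :=
  Finset.sum_nonneg (fun ω _ => mul_nonneg (hp.nonneg ω) (h ω))

theorem Ex_le_const {p : Ω → ℝ} (hp : IsP p) {F : Ω → ℝ} {c : ℝ} (h : ∀ ω, F ω ≤ c) :
    Ex p F ≤ c := (Ex_mono hp h).trans_eq (Ex_const hp c)

theorem const_le_Ex {p : Ω → ℝ} (hp : IsP p) {F : Ω → ℝ} {c : ℝ} (h : ∀ ω, c ≤ F ω) :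
    c ≤ Ex p F := (Ex_const hp c).symm.le.trans (Ex_mono hp h)

theorem abs_Ex_le {p : Ω → ℝ} (hp : IsP p) {F : Ω → ℝ} {c : ℝ} (h : ∀ ω, |F ω| ≤ c) :
    |Ex p F| ≤ c := by
  rw [abs_le]
  constructor
  · have := const_le_Ex hp (F := F) (c := -c) (fun ω => (abs_le.1 (h ω)).1)
    exact this
  · exact Ex_le_const hp (fun ω => (abs_le.1 (h ω)).2)

/-- if the average of `F` is `< c` then some value is `< c` -/
theorem exists_lt_of_Ex_lt {p : Ω → ℝ} (hp : IsP p) {F : Ω → ℝ} {c : ℝ} (h : Ex p F < c) :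
    ∃ ω, F ω < c := by
  by_contra hc
  push Not at hc
  exact absurd (const_le_Ex hp hc) (not_le.2 h)

theorem exists_pos_of_Ex_pos {p : Ω → ℝ} {F : Ω → ℝ} (hp : IsP p) (h : 0 < Ex p F) :
    ∃ ω, 0 < p ω ∧ 0 < F ω := by
  by_contra hc
  push Not at hc
  refine absurd (Finset.sum_nonpos (s := univ) (f := fun ω => p ω * F ω) ?_) (not_le.2 h)
  intro ω _
  rcases (hp.nonneg ω).lt_or_eq with h1 | h1
  · exact mul_nonpos_of_nonneg_of_nonpos h1.le (hc ω h1)
  · simp [← h1]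

theorem Pr_nonneg {p : Ω → ℝ} (hp : IsP p) (S : Ω → Prop) : 0 ≤ Pr p S :=
  Ex_nonneg hp (fun ω => ind_nonneg _)

theorem Pr_le_one {p : Ω → ℝ} (hp : IsP p) (S : Ω → Prop) : Pr p S ≤ 1 :=
  Ex_le_const hp (fun ω => ind_le_one _)

theorem Pr_mono {p : Ω → ℝ} (hp : IsP p) {S T : Ω → Prop} (h : ∀ ω, S ω → T ω) :
    Pr p S ≤ Pr p T := Ex_mono hp (fun ω => ind_mono (h ω))

theorem Pr_congr {p : Ω → ℝ} {S T : Ω → Prop} (h : ∀ ω, S ω ↔ T ω) : Pr p S = Pr p T :=
  Ex_congr (fun ω => ind_congr (h ω))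

theorem Pr_true {p : Ω → ℝ} (hp : IsP p) {S : Ω → Prop} (h : ∀ ω, S ω) : Pr p S = 1 := by
  have : Pr p S = Ex p (fun _ => 1) := Ex_congr (fun ω => ind_true (h ω))
  rw [this, Ex_const hp]

theorem Pr_false {p : Ω → ℝ} {S : Ω → Prop} (h : ∀ ω, ¬ S ω) : Pr p S = 0 := by
  have : Pr p S = Ex p (fun _ => 0) := Ex_congr (fun ω => ind_false (h ω))
  rw [this, Ex_zero]

theorem Pr_not {p : Ω → ℝ} (hp : IsP p) (S : Ω → Prop) : Pr p (fun ω => ¬ S ω) = 1 - Pr p S := by
  have : Pr p (fun ω => ¬ S ω) = Ex p (fun ω => 1 - ind (S ω)) :=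
    Ex_congr (fun ω => ind_not _)
  rw [this, Ex_sub, Ex_const hp]
  rfl

theorem Pr_or_le {p : Ω → ℝ} (hp : IsP p) (S T : Ω → Prop) :
    Pr p (fun ω => S ω ∨ T ω) ≤ Pr p S + Pr p T := by
  have h : Pr p (fun ω => S ω ∨ T ω) ≤ Ex p (fun ω => ind (S ω) + ind (T ω)) :=
    Ex_mono hp (fun ω => ind_or_le _ _)
  rwa [Ex_add] at h

/-- union bound -/
theorem Pr_exists_le {J : Type*} {p : Ω → ℝ} (hp : IsP p) (s : Finset J) (S : J → Ω → Prop) :
    Pr p (fun ω => ∃ j ∈ s, S j ω) ≤ ∑ j ∈ s, Pr p (S j) := by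
  have h : Pr p (fun ω => ∃ j ∈ s, S j ω) ≤ Ex p (fun ω => ∑ j ∈ s, ind (S j ω)) :=
    Ex_mono hp (fun ω => ind_exists_le _ _)
  rwa [Ex_sum] at h

/-- union bound with a common bound -/
theorem Pr_exists_le_card_mul {J : Type*} {p : Ω → ℝ} (hp : IsP p) (s : Finset J)
    (S : J → Ω → Prop) {q : ℝ} (hq : ∀ j ∈ s, Pr p (S j) ≤ q) :
    Pr p (fun ω => ∃ j ∈ s, S j ω) ≤ s.card * q := by
  refine (Pr_exists_le hp s S).trans ?_
  calc ∑ j ∈ s, Pr p (S j) ≤ ∑ j ∈ s, q := Finset.sum_le_sum hq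
    _ = s.card * q := by rw [Finset.sum_const, nsmul_eq_mul]

theorem exists_not_of_Pr_lt_one {p : Ω → ℝ} (hp : IsP p) {S : Ω → Prop} (h : Pr p S < 1) :
    ∃ ω, ¬ S ω := by
  by_contra hc
  push Not at hc
  rw [Pr_true hp hc] at h
  exact lt_irrefl _ h

/-- Markov -/
theorem markov {p : Ω → ℝ} (hp : IsP p) {F : Ω → ℝ} (hF : ∀ ω, 0 ≤ F ω) {t : ℝ} (ht : 0 < t) :
    Pr p (fun ω => t ≤ F ω) ≤ Ex p F / t := by
  rw [le_div_iff₀ ht, Pr, ← Ex_mul_right]
  refine Ex_mono hp (fun ω => ?_)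
  by_cases h : t ≤ F ω
  · rw [ind_true h, one_mul]; exact h
  · rw [ind_false h, zero_mul]; exact hF ω

/-- exponential Markov inequality -/
theorem exp_markov {p : Ω → ℝ} (hp : IsP p) (F : Ω → ℝ) (t : ℝ) :
    Pr p (fun ω => t ≤ F ω) ≤ Real.exp (-t) * Ex p (fun ω => Real.exp (F ω)) := by
  rw [← Ex_mul_left]
  refine Ex_mono hp (fun ω => ?_)
  by_cases h : t ≤ F ω
  · rw [ind_true h, ← Real.exp_add]
    exact Real.one_le_exp (by linarith)
  · rw [ind_false h]
    positivity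

/-- the uniform weight -/
noncomputable def unif (Ω : Type*) [Fintype Ω] : Ω → ℝ := fun _ => 1 / (Fintype.card Ω : ℝ)

theorem unif_isP [Nonempty Ω] : IsP (unif Ω) where
  nonneg := fun _ => by unfold unif; positivity
  sum_one := by
    unfold unif
    rw [Finset.sum_const, nsmul_eq_mul, Finset.card_univ]
    have : (Fintype.card Ω : ℝ) ≠ 0 := by
      exact_mod_cast Fintype.card_ne_zero
    field_simp

/-- the uniform weight on a nonempty finset -/
noncomputable def unifOn (W : Finset Ω) : Ω → ℝ := fun ω => ind (ω ∈ W) / (W.card : ℝ)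

theorem sum_unifOn (W : Finset Ω) (F : Ω → ℝ) :
    ∑ ω, ind (ω ∈ W) * F ω = ∑ ω ∈ W, F ω := by
  classical
  rw [← Finset.sum_filter_add_sum_filter_not univ (fun ω => ω ∈ W)]
  have h2 : ∑ ω ∈ univ.filter (fun ω => ω ∉ W), ind (ω ∈ W) * F ω = 0 :=
    Finset.sum_eq_zero (fun ω hω => by
      rw [ind_false (Finset.mem_filter.1 hω).2, zero_mul])
  have h1 : ∑ ω ∈ univ.filter (fun ω => ω ∈ W), ind (ω ∈ W) * F ω = ∑ ω ∈ W, F ω := by
    have : univ.filter (fun ω => ω ∈ W) = W := by ext; simp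
    rw [this]
    exact Finset.sum_congr rfl (fun ω hω => by rw [ind_true hω, one_mul])
  rw [h1, h2, add_zero]

theorem Ex_unifOn (W : Finset Ω) (F : Ω → ℝ) :
    Ex (unifOn W) F = (∑ ω ∈ W, F ω) / (W.card : ℝ) := by
  rw [← sum_unifOn W F, Ex, Finset.sum_div]
  exact Finset.sum_congr rfl (fun ω _ => by unfold unifOn; ring)

theorem unifOn_isP {W : Finset Ω} (hW : W.Nonempty) : IsP (unifOn W) where
  nonneg := fun ω => div_nonneg (ind_nonneg _) (Nat.cast_nonneg _)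
  sum_one := by
    have h := Ex_unifOn W (fun _ => (1 : ℝ))
    have h2 : Ex (unifOn W) (fun _ => (1 : ℝ)) = ∑ ω, unifOn W ω := by simp [Ex]
    rw [h2] at h
    rw [h, Finset.sum_const, nsmul_eq_mul, mul_one]
    have : (W.card : ℝ) ≠ 0 := by exact_mod_cast (Finset.card_pos.2 hW).ne'
    exact div_self this

open Classical in
theorem Pr_unifOn (W : Finset Ω) (S : Ω → Prop) :
    Pr (unifOn W) S = ((W.filter S).card : ℝ) / (W.card : ℝ) := by
  rw [Pr, Ex_unifOn]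
  congr 1
  rw [Finset.card_filter]
  push_cast
  exact Finset.sum_congr rfl (fun ω _ => rfl)

end General

end Pool.LarProb
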