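import Pool.Agent.LarH.ProbSeq

/-!
# Colouring of a digraph of bounded out-degree, counting of weakly dependent events
-/

set_option autoImplicit false
set_option linter.unusedVariables false
set_option linter.unusedSectionVars false

namespace Pool.LarProb

open Finset

/-- a digraph with out-degrees `≤ d` has a proper colouring with `2 d + 1` colours -/
theorem exists_colouring {V : Type*} [DecidableEq V] (H : V → Finset V) (d : ℕ)
    (T : Finset V) (hd : ∀ u ∈ T, (H u).card ≤ d) :
    ∃ c : V → Fin (2 * d + 1), ∀ u ∈ T, ∀ v ∈ T, u ≠ v → v ∈ H u → c u ≠ c v := by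
  induction T using Finset.strongInduction with
  | H T ih =>
    rcases T.eq_empty_or_nonempty with rfl | hne
    · exact ⟨fun _ => 0, by simp⟩
    -- a vertex of in-degree ≤ d
    have hex : ∃ v ∈ T, (T.filter (fun u => v ∈ H u)).card ≤ d := by
      by_contra hcon
      push Not at hcon
      have h1 : ∑ v ∈ T, (T.filter (fun u => v ∈ H u)).card
          = ∑ u ∈ T, (T.filter (fun v => v ∈ H u)).card := by
        simp only [Finset.card_filter]
        exact Finset.sum_comm
      have h2 : ∑ u ∈ T, (T.filter (fun v => v ∈ H u)).card ≤ ∑ u ∈ T, d := by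
        refine Finset.sum_le_sum (fun u hu => ?_)
        refine (Finset.card_le_card ?_).trans (hd u hu)
        intro v hv
        exact (Finset.mem_filter.1 hv).2
      have h3 : ∑ v ∈ T, d < ∑ v ∈ T, (T.filter (fun u => v ∈ H u)).card :=
        Finset.sum_lt_sum_of_nonempty hne hcon
      omega
    obtain ⟨v, hv, hvd⟩ := hex
    obtain ⟨c, hc⟩ := ih (T.erase v) (Finset.erase_ssubset hv)
      (fun u hu => hd u (Finset.mem_of_mem_erase hu))
    -- the forbidden colours of `v`
    set F : Finset (Fin (2 * d + 1)) :=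
      ((H v) ∪ (T.filter (fun u => v ∈ H u))).image c with hF
    have hFc : F.card < (univ : Finset (Fin (2 * d + 1))).card := by
      rw [Finset.card_univ, Fintype.card_fin]
      have h1 : F.card ≤ (H v).card + (T.filter (fun u => v ∈ H u)).card :=
        Finset.card_image_le.trans (Finset.card_union_le _ _)
      have h2 := hd v hv
      omega
    obtain ⟨x, _, hx⟩ := Finset.exists_mem_notMem_of_card_lt_card hFc
    refine ⟨Function.update c v x, ?_⟩
    intro a ha b hb hab hba
    by_cases hav : a = v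
    · subst hav
      have hbv : b ≠ a := fun h => hab h.symm
      rw [Function.update_self, Function.update_of_ne hbv]
      intro h
      apply hx
      rw [hF, h]
      exact Finset.mem_image_of_mem c (Finset.mem_union_left _ hba)
    · by_cases hbv : b = v
      · subst hbv
        rw [Function.update_self, Function.update_of_ne hav]
        intro h
        apply hx
        rw [hF, ← h]
        exact Finset.mem_image_of_mem c
          (Finset.mem_union_right _ (Finset.mem_filter.2 ⟨ha, hba⟩))
      · rw [Function.update_of_ne hav, Function.update_of_ne hbv]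
        exact hc a (Finset.mem_erase.2 ⟨hav, ha⟩) b (Finset.mem_erase.2 ⟨hbv, hb⟩) hab hba

section Count

variable {I : Type*} [Fintype I] [DecidableEq I] {A : I → Type*} [∀ i, Fintype (A i)]

/-- number of true events -/
noncomputable def cnt {J : Type*} (s : Finset J) (S : J → Prop) : ℝ := ∑ j ∈ s, ind (S j)

theorem cnt_nonneg {J : Type*} (s : Finset J) (S : J → Prop) : 0 ≤ cnt s S :=
  Finset.sum_nonneg (fun _ _ => ind_nonneg _)

open Classical in
theorem cnt_eq_card {J : Type*} (s : Finset J) (S : J → Prop) :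
    cnt s S = ((s.filter S).card : ℝ) := by
  unfold cnt
  rw [Finset.card_filter]
  push_cast
  exact Finset.sum_congr rfl (fun j _ => rfl)

/-- upper tail for independent events (disjoint blocks of coordinates) of probability `≤ p` -/
theorem count_indep {w : ∀ i, A i → ℝ} (hw : ∀ i, IsP (w i)) {J : Type*} [DecidableEq J]
    (s : Finset J) (B : J → Finset I) (S : J → (∀ i, A i) → Prop)
    (hS : ∀ j ∈ s, DepOn (B j) (S j))
    (hB : ∀ j ∈ s, ∀ k ∈ s, j ≠ k → Disjoint (B j) (B k)) {p t : ℝ}
    (hp : ∀ j ∈ s, Pr (PW w) (S j) ≤ p) :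
    Pr (PW w) (fun ω => 2 * p * s.card + t ≤ cnt s (fun j => S j ω))
      ≤ Real.exp (- (Real.log 2 * t)) := by
  have hlog2 : 0 < Real.log 2 := Real.log_pos (by norm_num)
  have hlogh : (1 : ℝ) ≤ 2 * Real.log 2 := by
    have := Real.log_two_gt_d9
    linarith
  rcases s.eq_empty_or_nonempty with rfl | hne
  · have h1 : ∀ ω : ∀ i, A i, ((2 * p * ((∅ : Finset J).card : ℝ) + t
        ≤ cnt (∅ : Finset J) (fun j => S j ω)) ↔ (t ≤ 0)) := by
      intro ω; simp [cnt]
    rw [Pr_congr h1]
    by_cases ht : t ≤ 0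
    · refine (Pr_le_one (PW_isP hw) _).trans (Real.one_le_exp ?_)
      nlinarith
    · rw [Pr_false (fun _ => ht)]
      exact (Real.exp_pos _).le
  have hp0 : 0 ≤ p := by
    obtain ⟨j, hj⟩ := hne
    exact (Pr_nonneg (PW_isP hw) _).trans (hp j hj)
  have hA : Pr (PW w) (fun ω => 2 * p * s.card + t ≤ cnt s (fun j => S j ω))
      ≤ Pr (PW w) (fun ω => Real.log 2 * (2 * p * s.card + t)
        ≤ Real.log 2 * cnt s (fun j => S j ω)) :=
    Pr_mono (PW_isP hw) (fun ω h => mul_le_mul_of_nonneg_left h hlog2.le)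
  refine hA.trans ((exp_markov (PW_isP hw) _ _).trans ?_)
  have h2 : ∀ ω : ∀ i, A i, Real.exp (Real.log 2 * cnt s (fun j => S j ω))
      = ∏ j ∈ s, Real.exp (Real.log 2 * ind (S j ω)) := fun ω => by
    unfold cnt
    rw [Finset.mul_sum, Real.exp_sum]
  rw [Ex_congr h2, Ex_prod_blocks hw B s (fun j ω => Real.exp (Real.log 2 * ind (S j ω)))
    (fun j hj => (hS j hj).comp (fun x => Real.exp (Real.log 2 * ind x))) hB]
  have h3 : ∀ j ∈ s, Ex (PW w) (fun ω => Real.exp (Real.log 2 * ind (S j ω)))
      ≤ Real.exp p := by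
    intro j hj
    have h4 : Ex (PW w) (fun ω => Real.exp (Real.log 2 * ind (S j ω)))
        ≤ Ex (PW w) (fun ω => 1 + ind (S j ω)) :=
      Ex_mono (PW_isP hw) (fun ω => exp_log_two_mul_le (ind_nonneg _) (ind_le_one _))
    rw [Ex_add, Ex_const (PW_isP hw)] at h4
    have h5 : Ex (PW w) (fun ω => ind (S j ω)) ≤ p := hp j hj
    have h6 := Real.add_one_le_exp p
    linarith
  have h4 : ∏ j ∈ s, Ex (PW w) (fun ω => Real.exp (Real.log 2 * ind (S j ω)))
      ≤ ∏ j ∈ s, Real.exp p :=
    Finset.prod_le_prod (fun j _ => Ex_nonneg (PW_isP hw) (fun ω => (Real.exp_pos _).le)) h3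
  rw [Finset.prod_const, ← Real.exp_nat_mul] at h4
  calc Real.exp (-(Real.log 2 * (2 * p * s.card + t)))
        * ∏ j ∈ s, Ex (PW w) (fun ω => Real.exp (Real.log 2 * ind (S j ω)))
      ≤ Real.exp (-(Real.log 2 * (2 * p * s.card + t))) * Real.exp (s.card * p) :=
        mul_le_mul_of_nonneg_left h4 (Real.exp_pos _).le
    _ = Real.exp (-(Real.log 2 * t) + (1 - 2 * Real.log 2) * (p * s.card)) := by
        rw [← Real.exp_add]; ring_nf
    _ ≤ Real.exp (- (Real.log 2 * t)) := by
        refine Real.exp_le_exp.2 ?_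
        have : 0 ≤ p * (s.card : ℝ) := mul_nonneg hp0 (Nat.cast_nonneg _)
        nlinarith

/-- upper tail for events which are independent inside every colour class -/
theorem count_coloured {w : ∀ i, A i → ℝ} (hw : ∀ i, IsP (w i)) {J : Type*} [DecidableEq J]
    (s : Finset J) (B : J → Finset I) (S : J → (∀ i, A i) → Prop) {K : ℕ} (c : J → Fin K)
    (hS : ∀ j ∈ s, DepOn (B j) (S j))
    (hB : ∀ j ∈ s, ∀ k ∈ s, j ≠ k → c j = c k → Disjoint (B j) (B k)) {p t : ℝ}
    (hp : ∀ j ∈ s, Pr (PW w) (S j) ≤ p) (hK : 0 < K) :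
    Pr (PW w) (fun ω => 2 * p * s.card + K * t ≤ cnt s (fun j => S j ω))
      ≤ K * Real.exp (- (Real.log 2 * t)) := by
  set sc : Fin K → Finset J := fun k => s.filter (fun j => c j = k) with hsc
  have hcard : (s.card : ℝ) = ∑ k, ((sc k).card : ℝ) := by
    have := Finset.card_eq_sum_card_fiberwise (f := c) (s := s) (t := univ)
      (fun j _ => mem_coe.2 (mem_univ _))
    rw [this]
    push_cast
    rfl
  have hcnt : ∀ ω : ∀ i, A i, cnt s (fun j => S j ω) = ∑ k, cnt (sc k) (fun j => S j ω) := by
    intro ω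
    unfold cnt
    exact (Finset.sum_fiberwise s c (fun j => ind (S j ω))).symm
  have h1 : Pr (PW w) (fun ω => 2 * p * s.card + K * t ≤ cnt s (fun j => S j ω))
      ≤ Pr (PW w) (fun ω => ∃ k ∈ (univ : Finset (Fin K)),
          2 * p * (sc k).card + t ≤ cnt (sc k) (fun j => S j ω)) := by
    refine Pr_mono (PW_isP hw) (fun ω h => ?_)
    by_contra hcon
    push Not at hcon
    have h2 : ∑ k, cnt (sc k) (fun j => S j ω) < ∑ k : Fin K, (2 * p * (sc k).card + t) := by
      haveI : Nonempty (Fin K) := ⟨⟨0, hK⟩⟩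
      exact Finset.sum_lt_sum_of_nonempty Finset.univ_nonempty (fun k hk => hcon k hk)
    rw [← hcnt, Finset.sum_add_distrib, ← Finset.mul_sum, ← hcard, Finset.sum_const,
      Finset.card_univ, Fintype.card_fin, nsmul_eq_mul] at h2
    linarith
  refine h1.trans ?_
  have h2 := Pr_exists_le_card_mul (PW_isP hw) (univ : Finset (Fin K))
    (fun k ω => 2 * p * (sc k).card + t ≤ cnt (sc k) (fun j => S j ω))
    (q := Real.exp (- (Real.log 2 * t))) (by
      intro k _
      refine count_indep hw (sc k) B S (fun j hj => hS j (Finset.mem_filter.1 hj).1) ?_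
        (fun j hj => hp j (Finset.mem_filter.1 hj).1)
      intro j hj l hl hjl
      rw [hsc, Finset.mem_filter] at hj hl
      exact hB j hj.1 l hl.1 hjl (hj.2.trans hl.2.symm))
  rwa [Finset.card_univ, Fintype.card_fin] at h2

end Count

end Pool.LarProb
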