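import Pool.Agent.LarH.ProbMore

/-!
# Lower tail for independent events given by disjoint blocks of coordinates; weighted sums of
functions of distinct coordinates
-/

set_option autoImplicit false
set_option linter.unusedVariables false
set_option linter.unusedSectionVars false

namespace Pool.LarProb

open Finset

section L

variable {I : Type*} [Fintype I] [DecidableEq I] {A : I → Type*} [∀ i, Fintype (A i)]

/-- `exp (-x/2) ≤ 1 - (3/8) x` on `[0,1]` -/
theorem exp_neg_half_le {x : ℝ} (hx0 : 0 ≤ x) (hx1 : x ≤ 1) :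
    Real.exp (-(x / 2)) ≤ 1 - 3 / 8 * x := by
  have := Real.quadratic_le_exp_of_nonneg (x := x / 2) (by linarith)
  have hpos : 0 < 1 + x / 2 + (x / 2) ^ 2 / 2 := by positivity
  rw [Real.exp_neg]
  have h9 : (Real.exp (x / 2))⁻¹ ≤ (1 + x / 2 + (x / 2) ^ 2 / 2)⁻¹ := inv_anti₀ hpos this
  refine h9.trans ?_
  rw [inv_le_iff_one_le_mul₀ hpos]
  nlinarith [mul_nonneg hx0 hx0, mul_nonneg (mul_nonneg hx0 hx0) hx0,
    mul_nonneg (mul_nonneg hx0 hx0) (sub_nonneg.2 hx1)]

/-- lower tail for independent events (disjoint blocks) of probability `≥ p` -/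
theorem count_lower {w : ∀ i, A i → ℝ} (hw : ∀ i, IsP (w i)) {J : Type*} [DecidableEq J]
    (s : Finset J) (B : J → Finset I) (S : J → (∀ i, A i) → Prop)
    (hS : ∀ j ∈ s, DepOn (B j) (S j))
    (hB : ∀ j ∈ s, ∀ k ∈ s, j ≠ k → Disjoint (B j) (B k)) {p : ℝ}
    (hp : ∀ j ∈ s, p ≤ Pr (PW w) (S j)) (hp0 : 0 ≤ p) :
    Pr (PW w) (fun ω => cnt s (fun j => S j ω) ≤ p * s.card / 2)
      ≤ Real.exp (- (p * s.card / 16)) := by
  have hA : Pr (PW w) (fun ω => cnt s (fun j => S j ω) ≤ p * s.card / 2)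
      ≤ Pr (PW w) (fun ω => - (p * s.card / 4) ≤ - (cnt s (fun j => S j ω) / 2)) :=
    Pr_mono (PW_isP hw) (fun ω h => by linarith)
  refine hA.trans ((exp_markov (PW_isP hw) _ _).trans ?_)
  have h2 : ∀ ω : ∀ i, A i, Real.exp (- (cnt s (fun j => S j ω) / 2))
      = ∏ j ∈ s, Real.exp (- (ind (S j ω) / 2)) := fun ω => by
    unfold cnt
    rw [← Real.exp_sum, Finset.sum_neg_distrib, Finset.sum_div]
  rw [Ex_congr h2, Ex_prod_blocks hw B s (fun j ω => Real.exp (- (ind (S j ω) / 2)))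
    (fun j hj => (hS j hj).comp (fun x => Real.exp (- (ind x / 2)))) hB]
  have h3 : ∀ j ∈ s, Ex (PW w) (fun ω => Real.exp (- (ind (S j ω) / 2)))
      ≤ Real.exp (- (3 / 8 * p)) := by
    intro j hj
    have h4 : Ex (PW w) (fun ω => Real.exp (- (ind (S j ω) / 2)))
        ≤ Ex (PW w) (fun ω => 1 - 3 / 8 * ind (S j ω)) :=
      Ex_mono (PW_isP hw) (fun ω => exp_neg_half_le (ind_nonneg _) (ind_le_one _))
    rw [Ex_sub, Ex_const (PW_isP hw), Ex_mul_left] at h4
    have h5 : p ≤ Ex (PW w) (fun ω => ind (S j ω)) := hp j hj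
    have h6 := Real.add_one_le_exp (- (3 / 8 * p))
    linarith
  have h4 : ∏ j ∈ s, Ex (PW w) (fun ω => Real.exp (- (ind (S j ω) / 2)))
      ≤ ∏ j ∈ s, Real.exp (- (3 / 8 * p)) :=
    Finset.prod_le_prod (fun j _ => Ex_nonneg (PW_isP hw) (fun ω => (Real.exp_pos _).le)) h3
  rw [Finset.prod_const, ← Real.exp_nat_mul] at h4
  calc Real.exp (- -(p * s.card / 4))
        * ∏ j ∈ s, Ex (PW w) (fun ω => Real.exp (- (ind (S j ω) / 2)))
      ≤ Real.exp (- -(p * s.card / 4)) * Real.exp (s.card * -(3 / 8 * p)) :=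
        mul_le_mul_of_nonneg_left h4 (Real.exp_pos _).le
    _ = Real.exp (- (p * s.card / 8)) := by
        rw [← Real.exp_add]; ring_nf
    _ ≤ Real.exp (- (p * s.card / 16)) := by
        refine Real.exp_le_exp.2 ?_
        have : 0 ≤ p * (s.card : ℝ) := mul_nonneg hp0 (Nat.cast_nonneg _)
        linarith

end L

/-! ### sums indexed by an injective family of coordinates (all factors equal) -/

section Inj

variable {I : Type*} [Fintype I] [DecidableEq I] {B : Type*} [Fintype B]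

/-- two sided tail for a sum of centred functions of distinct coordinates `k j` -/
theorem tail_abs_inj {v : B → ℝ} (hv : IsP v) {J : Type*} [DecidableEq J] (s : Finset J)
    (k : J → I) (hk : ∀ j ∈ s, ∀ j' ∈ s, k j = k j' → j = j') (Y : J → B → ℝ) {b V t : ℝ}
    (hb : ∀ j ∈ s, ∀ a, |Y j a| ≤ b) (hE : ∀ j ∈ s, Ex v (Y j) = 0)
    (hV : ∑ j ∈ s, Ex v (fun a => Y j a ^ 2) ≤ V) (hV0 : 0 < V) (ht : 0 ≤ t)
    (hbt : b * t ≤ 2 * V) :
    Pr (PW (I := I) (A := fun _ => B) (fun _ => v)) (fun ω => t ≤ |∑ j ∈ s, Y j (ω (k j))|)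
      ≤ 2 * Real.exp (- (t ^ 2 / (4 * V))) := by
  classical
  rcases s.eq_empty_or_nonempty with rfl | ⟨j0, hj0⟩
  · have hw : ∀ _ : I, IsP v := fun _ => hv
    by_cases ht0 : t = 0
    · subst ht0
      refine (Pr_le_one (PW_isP hw) _).trans ?_
      norm_num
    · have : ∀ ω : I → B, ¬ (t ≤ |∑ j ∈ (∅ : Finset J), Y j (ω (k j))|) := by
        intro ω h
        rw [Finset.sum_empty, abs_zero] at h
        exact ht0 (le_antisymm h ht)
      rw [Pr_false this]
      positivity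
  -- transport to the image
  set T := s.image k with hT
  set inv : I → J := fun i => if h : ∃ j ∈ s, k j = i then h.choose else j0 with hinv
  have hinvk : ∀ j ∈ s, inv (k j) = j := by
    intro j hj
    have h : ∃ j' ∈ s, k j' = k j := ⟨j, hj, rfl⟩
    simp only [hinv, dif_pos h]
    exact hk _ h.choose_spec.1 _ hj h.choose_spec.2
  have hsum : ∀ (f : I → ℝ), ∑ i ∈ T, f i = ∑ j ∈ s, f (k j) := by
    intro f
    rw [hT, Finset.sum_image hk]
  have h := tail_abs (A := fun _ : I => B) (w := fun _ => v) (fun _ => hv) T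
    (fun i a => Y (inv i) a) (b := b) (V := V) (t := t) ?_ ?_ ?_ hV0 ht hbt
  · refine le_trans (Pr_mono (PW_isP (fun _ => hv)) (fun ω hω => ?_)) h
    rw [hsum (fun i => Y (inv i) (ω i))]
    have : ∑ j ∈ s, Y (inv (k j)) (ω (k j)) = ∑ j ∈ s, Y j (ω (k j)) :=
      Finset.sum_congr rfl (fun j hj => by rw [hinvk j hj])
    rw [this]
    exact hω
  · intro i hi a
    obtain ⟨j, hj, rfl⟩ := Finset.mem_image.1 hi
    rw [hinvk j hj]
    exact hb j hj a
  · intro i hi
    obtain ⟨j, hj, rfl⟩ := Finset.mem_image.1 hi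
    rw [hinvk j hj]
    exact hE j hj
  · rw [hsum (fun i => Ex v (fun a => Y (inv i) a ^ 2))]
    refine le_trans (le_of_eq (Finset.sum_congr rfl (fun j hj => ?_))) hV
    rw [hinvk j hj]

/-- upper tail (base 2) for a sum of functions in `[0,1]` of distinct coordinates -/
theorem tail_two_inj {v : B → ℝ} (hv : IsP v) {J : Type*} [DecidableEq J] (s : Finset J)
    (k : J → I) (hk : ∀ j ∈ s, ∀ j' ∈ s, k j = k j' → j = j') (X : J → B → ℝ) {M t : ℝ}
    (h0 : ∀ j ∈ s, ∀ a, 0 ≤ X j a) (h1 : ∀ j ∈ s, ∀ a, X j a ≤ 1)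
    (hM : ∑ j ∈ s, Ex v (X j) ≤ M) :
    Pr (PW (I := I) (A := fun _ => B) (fun _ => v)) (fun ω => t ≤ ∑ j ∈ s, X j (ω (k j)))
      ≤ Real.exp (M - Real.log 2 * t) := by
  classical
  have hw : ∀ _ : I, IsP v := fun _ => hv
  rcases s.eq_empty_or_nonempty with rfl | ⟨j0, hj0⟩
  · rw [Finset.sum_empty] at hM
    by_cases ht0 : t ≤ 0
    · refine (Pr_le_one (PW_isP hw) _).trans (Real.one_le_exp ?_)
      have : 0 < Real.log 2 := Real.log_pos (by norm_num)
      nlinarith
    · have : ∀ ω : I → B, ¬ (t ≤ ∑ j ∈ (∅ : Finset J), X j (ω (k j))) := by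
        intro ω h
        rw [Finset.sum_empty] at h
        exact ht0 h
      rw [Pr_false this]
      exact (Real.exp_pos _).le
  set T := s.image k with hT
  set inv : I → J := fun i => if h : ∃ j ∈ s, k j = i then h.choose else j0 with hinv
  have hinvk : ∀ j ∈ s, inv (k j) = j := by
    intro j hj
    have h : ∃ j' ∈ s, k j' = k j := ⟨j, hj, rfl⟩
    simp only [hinv, dif_pos h]
    exact hk _ h.choose_spec.1 _ hj h.choose_spec.2
  have hsum : ∀ (f : I → ℝ), ∑ i ∈ T, f i = ∑ j ∈ s, f (k j) := by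
    intro f
    rw [hT, Finset.sum_image hk]
  have h := tail_base (A := fun _ : I => B) (w := fun _ => v) (fun _ => hv) T
    (fun i a => X (inv i) a) (L := 2) (M := M) (t := t) (by norm_num) ?_ ?_ ?_
  · refine le_trans (Pr_mono (PW_isP (fun _ => hv)) (fun ω hω => ?_))
      (h.trans (le_of_eq (by congr 1; ring)))
    rw [hsum (fun i => X (inv i) (ω i))]
    have : ∑ j ∈ s, X (inv (k j)) (ω (k j)) = ∑ j ∈ s, X j (ω (k j)) :=
      Finset.sum_congr rfl (fun j hj => by rw [hinvk j hj])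
    rw [this]
    exact hω
  · intro i hi a
    obtain ⟨j, hj, rfl⟩ := Finset.mem_image.1 hi
    rw [hinvk j hj]
    exact h0 j hj a
  · intro i hi a
    obtain ⟨j, hj, rfl⟩ := Finset.mem_image.1 hi
    rw [hinvk j hj]
    exact h1 j hj a
  · rw [hsum (fun i => Ex v (X (inv i)))]
    refine le_trans (le_of_eq (Finset.sum_congr rfl (fun j hj => ?_))) hM
    rw [hinvk j hj]

/-- expectation of a product of functions of distinct coordinates -/
theorem Ex_prod_inj {v : B → ℝ} (hv : IsP v) {J : Type*} [DecidableEq J] (s : Finset J)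
    (k : J → I) (hk : ∀ j ∈ s, ∀ j' ∈ s, k j = k j' → j = j') (f : J → B → ℝ) :
    Ex (PW (I := I) (A := fun _ => B) (fun _ => v)) (fun ω => ∏ j ∈ s, f j (ω (k j)))
      = ∏ j ∈ s, Ex v (f j) := by
  have hw : ∀ _ : I, IsP v := fun _ => hv
  rw [Ex_prod_blocks hw (fun j => {k j}) s (fun j ω => f j (ω (k j)))]
  · refine Finset.prod_congr rfl (fun j _ => ?_)
    exact Ex_coord hw (k j) (f j)
  · intro j _
    intro a b hab
    show f j (a (k j)) = f j (b (k j))
    rw [hab (k j) (Finset.mem_singleton_self _)]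
  · intro j hj j' hj' hne
    exact Finset.disjoint_singleton.2 (fun h => hne (hk j hj j' hj' h))

end Inj

end Pool.LarProb
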