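import Pool.Agent.LarH.ProbCol

/-!
# More library lemmas: many exceptional coordinates, unions over small sets, sums over subsets
-/

set_option autoImplicit false
set_option linter.unusedVariables false
set_option linter.unusedSectionVars false

namespace Pool.LarProb

open Finset

section A

variable {I : Type*} [Fintype I] [DecidableEq I] {A : I → Type*} [∀ i, Fintype (A i)]

/-- number of coordinates with a property: upper tail -/
theorem count_coord {w : ∀ i, A i → ℝ} (hw : ∀ i, IsP (w i)) (s : Finset I)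
    (R : ∀ i, A i → Prop) {p t : ℝ} (hp : ∀ i ∈ s, Pr (w i) (R i) ≤ p) :
    Pr (PW w) (fun ω => 2 * p * s.card + t ≤ cnt s (fun i => R i (ω i)))
      ≤ Real.exp (- (Real.log 2 * t)) := by
  refine count_indep hw s (fun i => {i}) (fun i ω => R i (ω i)) (fun i _ => ?_) ?_ ?_
  · exact DepOn.coord i (Finset.mem_singleton_self i) (R i)
  · intro i _ j _ hij
    exact Finset.disjoint_singleton.2 hij
  · intro i hi
    rw [Pr_coord hw i (R i)]
    exact hp i hi

/-- at least `k` exceptional coordinates -/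
theorem Pr_many_le {w : ∀ i, A i → ℝ} (hw : ∀ i, IsP (w i))
    (R : ∀ i, A i → Prop) {q : ℝ} (hq : ∀ i, Pr (w i) (R i) ≤ q) (k : ℕ) :
    Pr (PW w) (fun ω => (k : ℝ) ≤ cnt univ (fun i => R i (ω i)))
      ≤ (Fintype.card I * q) ^ k := by
  classical
  have h1 : Pr (PW w) (fun ω => (k : ℝ) ≤ cnt univ (fun i => R i (ω i)))
      ≤ Pr (PW w) (fun ω => ∃ W ∈ (univ : Finset I).powersetCard k, ∀ i ∈ W, R i (ω i)) := by
    refine Pr_mono (PW_isP hw) (fun ω h => ?_)
    rw [cnt_eq_card] at h
    have h2 : k ≤ (univ.filter (fun i => R i (ω i))).card := by exact_mod_cast h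
    obtain ⟨W, hW, hc⟩ := Finset.exists_subset_card_eq h2
    exact ⟨W, Finset.mem_powersetCard.2 ⟨Finset.subset_univ _, hc⟩,
      fun i hi => (Finset.mem_filter.1 (hW hi)).2⟩
  refine h1.trans ((Pr_exists_le_card_mul (PW_isP hw) _
    (fun (W : Finset I) ω => ∀ i ∈ W, R i (ω i)) (q := q ^ k) ?_).trans ?_)
  · intro W hW
    have := Pr_forall_le hw W R (q := q) (fun i _ => hq i)
    rwa [(Finset.mem_powersetCard.1 hW).2] at this
  · rw [Finset.card_powersetCard, Finset.card_univ, mul_pow]
    rcases isEmpty_or_nonempty I with hI | ⟨⟨i⟩⟩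
    · rcases Nat.eq_zero_or_pos k with rfl | hk
      · simp
      · have : Nat.choose (Fintype.card I) k = 0 := by
          rw [Fintype.card_eq_zero]; exact Nat.choose_eq_zero_of_lt hk
        rw [this]
        simp [Fintype.card_eq_zero, hk.ne']
    · have hq0 : 0 ≤ q := (Pr_nonneg (hw i) _).trans (hq i)
      refine mul_le_mul_of_nonneg_right ?_ (pow_nonneg hq0 k)
      exact_mod_cast Nat.choose_le_pow (Fintype.card I) k

/-- conditionally on the coordinate `u`: at least `k` exceptional coordinates other than `u` -/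
theorem Pr_many_star_le {w : ∀ i, A i → ℝ} (hw : ∀ i, IsP (w i)) (u : I)
    (R : ∀ v, A u → A v → Prop) {q : ℝ} (hq : ∀ v, ∀ x, Pr (w v) (R v x) ≤ q) (k : ℕ) :
    Pr (PW w) (fun ω => (k : ℝ) ≤ cnt (univ.erase u) (fun v => R v (ω u) (ω v)))
      ≤ (Fintype.card I * q) ^ k := by
  classical
  have h1 : Pr (PW w) (fun ω => (k : ℝ) ≤ cnt (univ.erase u) (fun v => R v (ω u) (ω v)))
      ≤ Pr (PW w) (fun ω => ∃ W ∈ ((univ : Finset I).erase u).powersetCard k,
          ∀ v ∈ W, R v (ω u) (ω v)) := by
    refine Pr_mono (PW_isP hw) (fun ω h => ?_)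
    rw [cnt_eq_card] at h
    have h2 : k ≤ ((univ.erase u).filter (fun v => R v (ω u) (ω v))).card := by
      exact_mod_cast h
    obtain ⟨W, hW, hc⟩ := Finset.exists_subset_card_eq h2
    exact ⟨W, Finset.mem_powersetCard.2
      ⟨hW.trans (Finset.filter_subset _ _), hc⟩, fun i hi => (Finset.mem_filter.1 (hW hi)).2⟩
  refine h1.trans ((Pr_exists_le_card_mul (PW_isP hw) _
    (fun (W : Finset I) ω => ∀ v ∈ W, R v (ω u) (ω v)) (q := q ^ k) ?_).trans ?_)
  · intro W hW
    have hW' := Finset.mem_powersetCard.1 hW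
    have := Pr_star_le hw u W (fun h => (Finset.mem_erase.1 (hW'.1 h)).1 rfl) R (q := q)
      (fun v _ x => hq v x)
    rwa [hW'.2] at this
  · rw [Finset.card_powersetCard, mul_pow]
    haveI : Nonempty (A u) := by
      by_contra hne
      rw [not_nonempty_iff] at hne
      have h := (hw u).sum_one
      rw [Finset.univ_eq_empty, Finset.sum_empty] at h
      exact zero_ne_one h
    have hq0 : 0 ≤ q := (Pr_nonneg (hw u) _).trans (hq u (Classical.arbitrary _))
    refine mul_le_mul_of_nonneg_right ?_ (pow_nonneg hq0 k)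
    have h2 : ((univ : Finset I).erase u).card ≤ Fintype.card I :=
      (Finset.card_le_card (Finset.erase_subset _ _)).trans_eq (Finset.card_univ)
    have h3 : Nat.choose ((univ : Finset I).erase u).card k ≤ (Fintype.card I) ^ k :=
      (Nat.choose_le_pow _ k).trans (Nat.pow_le_pow_left h2 k)
    exact_mod_cast h3

end A

section B

/-- the number of subsets of cardinality `≤ k` -/
theorem card_small_subsets (α : Type*) [Fintype α] [DecidableEq α] (k : ℕ) :
    ((univ : Finset (Finset α)).filter (fun Y => Y.card ≤ k)).card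
      ≤ (Fintype.card α + 1) ^ k := by
  classical
  have hcard : Fintype.card (Fin k → Option α) = (Fintype.card α + 1) ^ k := by
    rw [Fintype.card_fun, Fintype.card_option, Fintype.card_fin]
  rw [← hcard, ← Finset.card_univ]
  refine Finset.card_le_card_of_surjOn
    (fun f : Fin k → Option α => univ.filter (fun a => ∃ i, f i = some a)) ?_
  intro Y hY
  have hYk : Y.card ≤ k := by simpa using hY
  obtain ⟨l, hl⟩ : ∃ l : List α, l.length = Y.card ∧ ∀ a, a ∈ l ↔ a ∈ Y :=
    ⟨Y.toList, by simp, by simp⟩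
  refine ⟨fun i => l[(i : ℕ)]?, by simp, ?_⟩
  ext a
  simp only [mem_filter, mem_univ, true_and]
  rw [← hl.2 a, List.mem_iff_getElem?]
  constructor
  · rintro ⟨i, hi⟩
    exact ⟨i, hi⟩
  · rintro ⟨i, hi⟩
    have hlt : i < l.length := by
      by_contra hge
      rw [List.getElem?_eq_none (not_lt.1 hge)] at hi
      exact Option.some_ne_none a hi.symm
    exact ⟨⟨i, by omega⟩, hi⟩

/-- sum of `x ^ |J|` over the nonempty subsets -/
theorem sum_pow_card_le (α : Type*) [Fintype α] [DecidableEq α] {x : ℝ} (hx : 0 ≤ x)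
    (hx1 : Fintype.card α * x ≤ 1) :
    ∑ J ∈ (univ : Finset (Finset α)).filter (fun J => J.Nonempty), x ^ J.card
      ≤ 2 * (Fintype.card α * x) := by
  classical
  have h1 : ∑ J ∈ (univ : Finset (Finset α)), x ^ J.card = (x + 1) ^ Fintype.card α := by
    have h := Finset.sum_pow_mul_eq_add_pow x (1 : ℝ) (univ : Finset α)
    rw [Finset.card_univ] at h
    rw [← h, Finset.powerset_univ]
    exact Finset.sum_congr rfl (fun J _ => by rw [one_pow, mul_one])
  have h2 : ∑ J ∈ (univ : Finset (Finset α)).filter (fun J => J.Nonempty), x ^ J.card + 1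
      = ∑ J ∈ (univ : Finset (Finset α)), x ^ J.card := by
    have h3 := Finset.sum_filter_add_sum_filter_not (univ : Finset (Finset α))
      (fun J => J.Nonempty) (fun J => x ^ J.card)
    rw [← h3]
    congr 1
    have h4 : (univ : Finset (Finset α)).filter (fun J => ¬ J.Nonempty) = {∅} := by
      ext J
      simp [Finset.not_nonempty_iff_eq_empty]
    rw [h4]
    simp
  have h5 : (x + 1) ^ Fintype.card α ≤ Real.exp (Fintype.card α * x) := by
    have := Real.add_one_le_exp x
    calc (x + 1) ^ Fintype.card α ≤ (Real.exp x) ^ Fintype.card α :=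
          pow_le_pow_left₀ (by linarith) this _
      _ = Real.exp (Fintype.card α * x) := by rw [← Real.exp_nat_mul]
  have h6 : |(Fintype.card α * x : ℝ)| ≤ 1 := by
    rw [abs_of_nonneg (by positivity)]; exact hx1
  have h7 := exp_le_quad h6
  have h8 : (0 : ℝ) ≤ Fintype.card α * x := by positivity
  nlinarith

/-- union bound over the nonempty subsets, the bound being multiplicative -/
theorem Pr_exists_subset_le {Ω : Type*} [Fintype Ω] {p : Ω → ℝ} (hp : IsP p) (α : Type*)
    [Fintype α] [DecidableEq α] (S : Finset α → Ω → Prop) {x : ℝ} (hx : 0 ≤ x)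
    (hx1 : Fintype.card α * x ≤ 1) (hS : ∀ J : Finset α, J.Nonempty → Pr p (S J) ≤ x ^ J.card) :
    Pr p (fun ω => ∃ J : Finset α, J.Nonempty ∧ S J ω) ≤ 2 * (Fintype.card α * x) := by
  classical
  have h1 : Pr p (fun ω => ∃ J : Finset α, J.Nonempty ∧ S J ω)
      ≤ Pr p (fun ω => ∃ J ∈ (univ : Finset (Finset α)).filter (fun J => J.Nonempty), S J ω) :=
    Pr_mono hp (fun ω ⟨J, hJ, hS⟩ => ⟨J, by simp [hJ], hS⟩)
  refine h1.trans ((Pr_exists_le hp _ S).trans (le_trans ?_ (sum_pow_card_le α hx hx1)))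
  exact Finset.sum_le_sum (fun J hJ => hS J (Finset.mem_filter.1 hJ).2)

end B

end Pool.LarProb
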