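import Pool.Agent.LarH.Prob

/-!
# Product weights, resampling, independence, tail bounds (Larman project)
-/

set_option autoImplicit false
set_option linter.unusedVariables false
set_option linter.unusedSectionVars false

namespace Pool.LarProb

open Finset

section Product

variable {I : Type*} [Fintype I] [DecidableEq I] {A : I → Type*} [∀ i, Fintype (A i)]

/-- product weight -/
noncomputable def PW (w : ∀ i, A i → ℝ) (ω : ∀ i, A i) : ℝ := ∏ i, w i (ω i)

/-- the basic product rule -/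
theorem sum_prod_univ (f : ∀ i, A i → ℝ) :
    ∑ ω : ∀ i, A i, ∏ i, f i (ω i) = ∏ i, ∑ a, f i a := by
  rw [Finset.prod_univ_sum, Fintype.piFinset_univ]

theorem PW_isP {w : ∀ i, A i → ℝ} (hw : ∀ i, IsP (w i)) : IsP (PW w) where
  nonneg := fun ω => Finset.prod_nonneg (fun i _ => (hw i).nonneg _)
  sum_one := by
    unfold PW
    rw [sum_prod_univ]
    exact Finset.prod_eq_one (fun i _ => (hw i).sum_one)

theorem Ex_prod_univ (w : ∀ i, A i → ℝ) (f : ∀ i, A i → ℝ) :
    Ex (PW w) (fun ω => ∏ i, f i (ω i)) = ∏ i, Ex (w i) (f i) := by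
  unfold Ex PW
  rw [← sum_prod_univ]
  exact Finset.sum_congr rfl (fun ω _ => (Finset.prod_mul_distrib).symm)

/-- product rule over a finset of coordinates -/
theorem Ex_prod {w : ∀ i, A i → ℝ} (hw : ∀ i, IsP (w i)) (s : Finset I) (f : ∀ i, A i → ℝ) :
    Ex (PW w) (fun ω => ∏ i ∈ s, f i (ω i)) = ∏ i ∈ s, Ex (w i) (f i) := by
  have h := Ex_prod_univ w (fun i a => if i ∈ s then f i a else 1)
  have h1 : ∀ ω : ∀ i, A i,
      ∏ i, (if i ∈ s then f i (ω i) else 1) = ∏ i ∈ s, f i (ω i) := fun ω => by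
    rw [Finset.prod_ite_mem, Finset.univ_inter]
  rw [Ex_congr h1] at h
  rw [h]
  have h2 : ∀ i, Ex (w i) (fun a => if i ∈ s then f i a else 1)
      = if i ∈ s then Ex (w i) (f i) else 1 := fun i => by
    by_cases hi : i ∈ s
    · simp [hi]
    · simp only [hi, if_false]
      exact Ex_const (hw i) 1
  rw [Finset.prod_congr rfl (fun i _ => h2 i), Finset.prod_ite_mem, Finset.univ_inter]

/-! ### resampling one coordinate -/

/-- swap of a coordinate with an external value -/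
def swapAt (u : I) (x : (∀ i, A i) × A u) : (∀ i, A i) × A u :=
  (Function.update x.1 u x.2, x.1 u)

theorem swapAt_invol (u : I) : Function.Involutive (swapAt (A := A) u) := by
  intro x
  obtain ⟨ω, a⟩ := x
  simp only [swapAt, Function.update_self, Function.update_idem, Function.update_eq_self]

theorem PW_update (w : ∀ i, A i → ℝ) (ω : ∀ i, A i) (u : I) (a : A u) :
    PW w (Function.update ω u a) * w u (ω u) = PW w ω * w u a := by
  unfold PW
  rw [← Finset.mul_prod_erase univ _ (Finset.mem_univ u),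
    ← Finset.mul_prod_erase univ (fun i => w i (ω i)) (Finset.mem_univ u)]
  have h : ∏ x ∈ univ.erase u, w x (Function.update ω u a x)
      = ∏ x ∈ univ.erase u, w x (ω x) :=
    Finset.prod_congr rfl (fun x hx => by
      rw [Function.update_of_ne (Finset.ne_of_mem_erase hx)])
  rw [h, Function.update_self]
  ring

/-- resampling one coordinate does not change an expectation -/
theorem Ex_update {w : ∀ i, A i → ℝ} (hw : ∀ i, IsP (w i)) (u : I) (F : (∀ i, A i) → ℝ) :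
    Ex (PW w) (fun ω => Ex (w u) (fun a => F (Function.update ω u a))) = Ex (PW w) F := by
  have h1 : Ex (PW w) (fun ω => Ex (w u) (fun a => F (Function.update ω u a)))
      = ∑ x : (∀ i, A i) × A u, PW w x.1 * w u x.2 * F (Function.update x.1 u x.2) := by
    rw [Fintype.sum_prod_type]
    unfold Ex
    refine Finset.sum_congr rfl (fun ω _ => ?_)
    rw [Finset.mul_sum]
    exact Finset.sum_congr rfl (fun a _ => by ring)
  have h2 : ∑ x : (∀ i, A i) × A u, PW w x.1 * w u x.2 * F (Function.update x.1 u x.2)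
      = ∑ x : (∀ i, A i) × A u, PW w x.1 * w u x.2 * F x.1 := by
    refine Fintype.sum_equiv (swapAt_invol (A := A) u).toPerm _ _ (fun x => ?_)
    show _ = PW w (swapAt u x).1 * w u (swapAt u x).2 * F (swapAt u x).1
    simp only [swapAt]
    rw [PW_update]
  rw [h1, h2, Fintype.sum_prod_type]
  unfold Ex
  refine Finset.sum_congr rfl (fun ω _ => ?_)
  have : ∑ y, PW w ω * w u y * F ω = PW w ω * F ω * ∑ y, w u y := by
    rw [Finset.mul_sum]
    exact Finset.sum_congr rfl (fun a _ => by ring)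
  rw [this, (hw u).sum_one, mul_one]

/-! ### resampling a set of coordinates -/

/-- swap the coordinates in `s` between two configurations -/
def swapOn (s : Finset I) (x : (∀ i, A i) × (∀ i, A i)) : (∀ i, A i) × (∀ i, A i) :=
  (s.piecewise x.1 x.2, s.piecewise x.2 x.1)

theorem swapOn_invol (s : Finset I) : Function.Involutive (swapOn (A := A) s) := by
  intro x
  obtain ⟨a, b⟩ := x
  simp only [swapOn]
  ext i
  · by_cases hi : i ∈ s <;> simp [hi]
  · by_cases hi : i ∈ s <;> simp [hi]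

theorem PW_piecewise (w : ∀ i, A i → ℝ) (s : Finset I) (a b : ∀ i, A i) :
    PW w (s.piecewise a b) * PW w (s.piecewise b a) = PW w a * PW w b := by
  unfold PW
  rw [← Finset.prod_mul_distrib, ← Finset.prod_mul_distrib]
  refine Finset.prod_congr rfl (fun i _ => ?_)
  by_cases hi : i ∈ s
  · simp [hi]
  · simp [hi, mul_comm]

/-- resampling: `a` fixes the coordinates in `s`, `b` the other ones -/
theorem Ex_piecewise {w : ∀ i, A i → ℝ} (hw : ∀ i, IsP (w i)) (s : Finset I)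
    (F : (∀ i, A i) → ℝ) :
    Ex (PW w) (fun a => Ex (PW w) (fun b => F (s.piecewise a b))) = Ex (PW w) F := by
  have h1 : Ex (PW w) (fun a => Ex (PW w) (fun b => F (s.piecewise a b)))
      = ∑ x : (∀ i, A i) × (∀ i, A i), PW w x.1 * PW w x.2 * F (s.piecewise x.1 x.2) := by
    rw [Fintype.sum_prod_type]
    unfold Ex
    refine Finset.sum_congr rfl (fun ω _ => ?_)
    rw [Finset.mul_sum]
    exact Finset.sum_congr rfl (fun a _ => by ring)
  have h2 : ∑ x : (∀ i, A i) × (∀ i, A i), PW w x.1 * PW w x.2 * F (s.piecewise x.1 x.2)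
      = ∑ x : (∀ i, A i) × (∀ i, A i), PW w x.1 * PW w x.2 * F x.1 := by
    refine Fintype.sum_equiv (swapOn_invol (A := A) s).toPerm _ _ (fun x => ?_)
    show _ = PW w (swapOn s x).1 * PW w (swapOn s x).2 * F (swapOn s x).1
    simp only [swapOn]
    rw [PW_piecewise]
  rw [h1, h2, Fintype.sum_prod_type]
  unfold Ex
  refine Finset.sum_congr rfl (fun ω _ => ?_)
  have : ∑ y, PW w ω * PW w y * F ω = PW w ω * F ω * ∑ y, PW w y := by
    rw [Finset.mul_sum]
    exact Finset.sum_congr rfl (fun a _ => by ring)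
  rw [this, (PW_isP hw).sum_one, mul_one]

/-- if for every way of freezing the coordinates in `s` the average is `≤ c` then so is the
whole average -/
theorem Ex_le_of_freeze {w : ∀ i, A i → ℝ} (hw : ∀ i, IsP (w i)) (s : Finset I)
    {F : (∀ i, A i) → ℝ} {c : ℝ}
    (h : ∀ a : ∀ i, A i, Ex (PW w) (fun b => F (s.piecewise a b)) ≤ c) :
    Ex (PW w) F ≤ c := by
  rw [← Ex_piecewise hw s F]
  exact Ex_le_const (PW_isP hw) h

theorem Pr_le_of_freeze {w : ∀ i, A i → ℝ} (hw : ∀ i, IsP (w i)) (s : Finset I)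
    {S : (∀ i, A i) → Prop} {c : ℝ}
    (h : ∀ a : ∀ i, A i, Pr (PW w) (fun b => S (s.piecewise a b)) ≤ c) :
    Pr (PW w) S ≤ c := Ex_le_of_freeze hw s h

/-- `F` depends only on the coordinates in `s` -/
def DepOn (s : Finset I) {β : Type*} (F : (∀ i, A i) → β) : Prop :=
  ∀ a b : ∀ i, A i, (∀ i ∈ s, a i = b i) → F a = F b

theorem DepOn.mono {s t : Finset I} (h : s ⊆ t) {β : Type*} {F : (∀ i, A i) → β}
    (hF : DepOn s F) : DepOn t F := fun a b hab => hF a b (fun i hi => hab i (h hi))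

theorem DepOn.comp {s : Finset I} {β γ : Type*} {F : (∀ i, A i) → β} (g : β → γ)
    (hF : DepOn s F) : DepOn s (fun ω => g (F ω)) := fun a b hab => by
  show g (F a) = g (F b)
  rw [hF a b hab]

theorem DepOn.ind {s : Finset I} {S : (∀ i, A i) → Prop}
    (hF : DepOn s S) : DepOn s (fun ω => ind (S ω)) := hF.comp (fun x => Pool.LarProb.ind x)

theorem DepOn.coord {s : Finset I} {β : Type*} (i : I) (hi : i ∈ s) (g : A i → β) :
    DepOn s (fun ω : ∀ i, A i => g (ω i)) := fun a b hab => by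
  show g (a i) = g (b i)
  rw [hab i hi]

theorem DepOn.finsetProd {s : Finset I} {J : Type*} (t : Finset J) {F : J → (∀ i, A i) → ℝ}
    (hF : ∀ j ∈ t, DepOn s (F j)) : DepOn s (fun ω => ∏ j ∈ t, F j ω) := fun a b hab =>
  Finset.prod_congr rfl (fun j hj => hF j hj a b hab)

theorem DepOn.finsetSum {s : Finset I} {J : Type*} (t : Finset J) {F : J → (∀ i, A i) → ℝ}
    (hF : ∀ j ∈ t, DepOn s (F j)) : DepOn s (fun ω => ∑ j ∈ t, F j ω) := fun a b hab =>
  Finset.sum_congr rfl (fun j hj => hF j hj a b hab)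

/-- independence of functions of disjoint sets of coordinates -/
theorem Ex_mul_indep {w : ∀ i, A i → ℝ} (hw : ∀ i, IsP (w i)) {s t : Finset I}
    (hst : Disjoint s t) {F G : (∀ i, A i) → ℝ} (hF : DepOn s F) (hG : DepOn t G) :
    Ex (PW w) (fun ω => F ω * G ω) = Ex (PW w) F * Ex (PW w) G := by
  rw [← Ex_piecewise hw s (fun ω => F ω * G ω)]
  have h : ∀ a b : ∀ i, A i, F (s.piecewise a b) * G (s.piecewise a b) = F a * G b := by
    intro a b
    rw [hF (s.piecewise a b) a (fun i hi => by simp [hi]),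
      hG (s.piecewise a b) b (fun i hi => by
        have : i ∉ s := fun h => Finset.disjoint_left.1 hst h hi
        simp [this])]
  have h2 : Ex (PW w) (fun a => Ex (PW w) (fun b => F (s.piecewise a b) * G (s.piecewise a b)))
      = Ex (PW w) (fun a => F a * Ex (PW w) G) := by
    refine Ex_congr (fun a => ?_)
    rw [Ex_congr (h a), Ex_mul_left]
  rw [h2, Ex_mul_right]

/-- independence of a family of functions of pairwise disjoint blocks of coordinates -/
theorem Ex_prod_blocks {w : ∀ i, A i → ℝ} (hw : ∀ i, IsP (w i)) {J : Type*} [DecidableEq J]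
    (B : J → Finset I) (t : Finset J) (F : J → (∀ i, A i) → ℝ)
    (hF : ∀ j ∈ t, DepOn (B j) (F j))
    (hB : ∀ j ∈ t, ∀ k ∈ t, j ≠ k → Disjoint (B j) (B k)) :
    Ex (PW w) (fun ω => ∏ j ∈ t, F j ω) = ∏ j ∈ t, Ex (PW w) (F j) := by
  induction t using Finset.induction_on with
  | empty => simp [Ex_const (PW_isP hw)]
  | insert j t hj ih =>
    rw [Finset.prod_insert hj]
    have h1 : Ex (PW w) (fun ω => ∏ k ∈ insert j t, F k ω)
        = Ex (PW w) (fun ω => F j ω * ∏ k ∈ t, F k ω) :=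
      Ex_congr (fun ω => Finset.prod_insert hj)
    rw [h1, Ex_mul_indep hw (s := B j) (t := t.biUnion B) ?_ (hF j (mem_insert_self _ _)) ?_,
      ih (fun k hk => hF k (mem_insert_of_mem hk))
        (fun k hk l hl => hB k (mem_insert_of_mem hk) l (mem_insert_of_mem hl))]
    · rw [Finset.disjoint_biUnion_right]
      intro k hk
      exact hB j (mem_insert_self _ _) k (mem_insert_of_mem hk)
        (fun h => hj (h ▸ hk))
    · exact DepOn.finsetProd t (fun k hk => (hF k (mem_insert_of_mem hk)).mono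
        (Finset.subset_biUnion_of_mem B hk))

/-- the expectation of a function of one coordinate -/
theorem Ex_coord {w : ∀ i, A i → ℝ} (hw : ∀ i, IsP (w i)) (u : I) (f : A u → ℝ) :
    Ex (PW w) (fun ω => f (ω u)) = Ex (w u) f := by
  rw [← Ex_update hw u]
  have : ∀ ω : ∀ i, A i, Ex (w u) (fun a => f (Function.update ω u a u)) = Ex (w u) f :=
    fun ω => Ex_congr (fun a => by rw [Function.update_self])
  rw [Ex_congr this, Ex_const (PW_isP hw)]

theorem Pr_coord {w : ∀ i, A i → ℝ} (hw : ∀ i, IsP (w i)) (u : I) (S : A u → Prop) :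
    Pr (PW w) (fun ω => S (ω u)) = Pr (w u) S := Ex_coord hw u (fun a => ind (S a))

/-- the 'star' union bound: conditionally on the coordinate `u` the events `R v (ω u) (ω v)`,
`v ∈ W`, are independent -/
theorem Pr_star_le {w : ∀ i, A i → ℝ} (hw : ∀ i, IsP (w i)) (u : I) (W : Finset I)
    (huW : u ∉ W) (R : ∀ v, A u → A v → Prop) {q : ℝ}
    (hq : ∀ v ∈ W, ∀ x : A u, Pr (w v) (R v x) ≤ q) :
    Pr (PW w) (fun ω => ∀ v ∈ W, R v (ω u) (ω v)) ≤ q ^ W.card := by
  refine Pr_le_of_freeze hw {u} (fun a => ?_)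
  have h1 : ∀ b : ∀ i, A i, (∀ v ∈ W, R v ((({u} : Finset I).piecewise a b) u)
      ((({u} : Finset I).piecewise a b) v)) ↔ (∀ v ∈ W, R v (a u) (b v)) := by
    intro b
    refine forall₂_congr (fun v hv => ?_)
    have hvu : v ∉ ({u} : Finset I) := by
      rw [Finset.mem_singleton]; rintro rfl; exact huW hv
    rw [Finset.piecewise_eq_of_notMem _ _ _ hvu,
      Finset.piecewise_eq_of_mem _ _ _ (Finset.mem_singleton_self u)]
  rw [Pr_congr h1]
  have h2 : Pr (PW w) (fun b => ∀ v ∈ W, R v (a u) (b v))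
      = ∏ v ∈ W, Pr (w v) (R v (a u)) := by
    have h3 : ∀ b : ∀ i, A i, ind (∀ v ∈ W, R v (a u) (b v))
        = ∏ v ∈ W, ind (R v (a u) (b v)) := fun b => ind_forall W _
    rw [Pr, Ex_congr h3, Ex_prod hw W (fun v x => ind (R v (a u) x))]
    rfl
  rw [h2]
  calc ∏ v ∈ W, Pr (w v) (R v (a u)) ≤ ∏ v ∈ W, q :=
        Finset.prod_le_prod (fun v _ => Pr_nonneg (hw v) _) (fun v hv => hq v hv _)
    _ = q ^ W.card := by rw [Finset.prod_const]

/-- independent events in different coordinates -/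
theorem Pr_forall_le {w : ∀ i, A i → ℝ} (hw : ∀ i, IsP (w i)) (W : Finset I)
    (R : ∀ v, A v → Prop) {q : ℝ} (hq : ∀ v ∈ W, Pr (w v) (R v) ≤ q) :
    Pr (PW w) (fun ω => ∀ v ∈ W, R v (ω v)) ≤ q ^ W.card := by
  have h3 : ∀ b : ∀ i, A i, ind (∀ v ∈ W, R v (b v)) = ∏ v ∈ W, ind (R v (b v)) :=
    fun b => ind_forall W _
  rw [Pr, Ex_congr h3, Ex_prod hw W (fun v x => ind (R v x))]
  calc ∏ v ∈ W, Pr (w v) (R v) ≤ ∏ v ∈ W, q :=
        Finset.prod_le_prod (fun v _ => Pr_nonneg (hw v) _) (fun v hv => hq v hv)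
    _ = q ^ W.card := by rw [Finset.prod_const]

end Product

/-! ## tail bounds -/

section Tail

/-- `exp x ≤ 1 + x + x²` for `|x| ≤ 1` -/
theorem exp_le_quad {x : ℝ} (h : |x| ≤ 1) : Real.exp x ≤ 1 + x + x ^ 2 := by
  have h1 := Real.abs_exp_sub_one_sub_id_le h
  have := (abs_le.1 h1).2
  linarith

theorem Ex_exp_le {Ω : Type*} [Fintype Ω] {p : Ω → ℝ} (hp : IsP p) {Y : Ω → ℝ} {b lam : ℝ}
    (hb : ∀ ω, |Y ω| ≤ b) (hl : 0 ≤ lam) (hlb : lam * b ≤ 1) (hE : Ex p Y ≤ 0) :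
    Ex p (fun ω => Real.exp (lam * Y ω)) ≤ Real.exp (lam ^ 2 * Ex p (fun ω => Y ω ^ 2)) := by
  have h1 : Ex p (fun ω => Real.exp (lam * Y ω))
      ≤ Ex p (fun ω => 1 + (lam * Y ω + lam ^ 2 * Y ω ^ 2)) := by
    refine Ex_mono hp (fun ω => ?_)
    have h2 : |lam * Y ω| ≤ 1 := by
      rw [abs_mul, abs_of_nonneg hl]
      exact (mul_le_mul_of_nonneg_left (hb ω) hl).trans hlb
    have := exp_le_quad h2
    rw [mul_pow] at this
    linarith
  rw [Ex_add, Ex_const hp, Ex_add, Ex_mul_left, Ex_mul_left] at h1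
  have h3 : lam * Ex p Y ≤ 0 := mul_nonpos_of_nonneg_of_nonpos hl hE
  have h4 := Real.add_one_le_exp (lam ^ 2 * Ex p (fun ω => Y ω ^ 2))
  linarith

variable {I : Type*} [Fintype I] [DecidableEq I] {A : I → Type*} [∀ i, Fintype (A i)]

/-- THE tail bound: independent variables `|Y i| ≤ b` with nonpositive means and sum of second
moments `≤ V` -/
theorem tail_bound {w : ∀ i, A i → ℝ} (hw : ∀ i, IsP (w i)) (s : Finset I)
    (Y : ∀ i, A i → ℝ) {b lam V t : ℝ} (hb : ∀ i ∈ s, ∀ a, |Y i a| ≤ b)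
    (hE : ∀ i ∈ s, Ex (w i) (Y i) ≤ 0)
    (hV : ∑ i ∈ s, Ex (w i) (fun a => Y i a ^ 2) ≤ V) (hl : 0 ≤ lam) (hlb : lam * b ≤ 1) :
    Pr (PW w) (fun ω => t ≤ ∑ i ∈ s, Y i (ω i)) ≤ Real.exp (lam ^ 2 * V - lam * t) := by
  have h1 : Pr (PW w) (fun ω => t ≤ ∑ i ∈ s, Y i (ω i))
      ≤ Pr (PW w) (fun ω => lam * t ≤ lam * ∑ i ∈ s, Y i (ω i)) :=
    Pr_mono (PW_isP hw) (fun ω h => mul_le_mul_of_nonneg_left h hl)
  refine h1.trans ((exp_markov (PW_isP hw) _ _).trans ?_)
  have h2 : ∀ ω : ∀ i, A i, Real.exp (lam * ∑ i ∈ s, Y i (ω i))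
      = ∏ i ∈ s, Real.exp (lam * Y i (ω i)) := fun ω => by
    rw [Finset.mul_sum, Real.exp_sum]
  rw [Ex_congr h2, Ex_prod hw s (fun i a => Real.exp (lam * Y i a))]
  have h3 : ∏ i ∈ s, Ex (w i) (fun a => Real.exp (lam * Y i a))
      ≤ ∏ i ∈ s, Real.exp (lam ^ 2 * Ex (w i) (fun a => Y i a ^ 2)) :=
    Finset.prod_le_prod (fun i _ => Ex_nonneg (hw i) (fun a => (Real.exp_pos _).le))
      (fun i hi => Ex_exp_le (hw i) (hb i hi) hl hlb (hE i hi))
  rw [← Real.exp_sum, ← Finset.mul_sum] at h3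
  have h4 : Real.exp (lam ^ 2 * ∑ i ∈ s, Ex (w i) (fun a => Y i a ^ 2))
      ≤ Real.exp (lam ^ 2 * V) :=
    Real.exp_le_exp.2 (mul_le_mul_of_nonneg_left hV (sq_nonneg _))
  calc Real.exp (-(lam * t)) * ∏ i ∈ s, Ex (w i) (fun a => Real.exp (lam * Y i a))
      ≤ Real.exp (-(lam * t)) * Real.exp (lam ^ 2 * V) :=
        mul_le_mul_of_nonneg_left (h3.trans h4) (Real.exp_pos _).le
    _ = Real.exp (lam ^ 2 * V - lam * t) := by rw [← Real.exp_add]; ring_nf

/-- optimised form: `exp (- t² / (4 V))` when `b t ≤ 2 V` -/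
theorem tail_bound_opt {w : ∀ i, A i → ℝ} (hw : ∀ i, IsP (w i)) (s : Finset I)
    (Y : ∀ i, A i → ℝ) {b V t : ℝ} (hb : ∀ i ∈ s, ∀ a, |Y i a| ≤ b)
    (hE : ∀ i ∈ s, Ex (w i) (Y i) ≤ 0)
    (hV : ∑ i ∈ s, Ex (w i) (fun a => Y i a ^ 2) ≤ V) (hV0 : 0 < V) (ht : 0 ≤ t)
    (hbt : b * t ≤ 2 * V) :
    Pr (PW w) (fun ω => t ≤ ∑ i ∈ s, Y i (ω i)) ≤ Real.exp (- (t ^ 2 / (4 * V))) := by
  have h := tail_bound (t := t) (lam := t / (2 * V)) hw s Y hb hE hV (by positivity) (by
    rw [div_mul_eq_mul_div, div_le_one (by positivity), mul_comm]; exact hbt)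
  refine h.trans (le_of_eq ?_)
  congr 1
  field_simp
  ring

/-- two sided version -/
theorem tail_abs {w : ∀ i, A i → ℝ} (hw : ∀ i, IsP (w i)) (s : Finset I)
    (Y : ∀ i, A i → ℝ) {b V t : ℝ} (hb : ∀ i ∈ s, ∀ a, |Y i a| ≤ b)
    (hE : ∀ i ∈ s, Ex (w i) (Y i) = 0)
    (hV : ∑ i ∈ s, Ex (w i) (fun a => Y i a ^ 2) ≤ V) (hV0 : 0 < V) (ht : 0 ≤ t)
    (hbt : b * t ≤ 2 * V) :
    Pr (PW w) (fun ω => t ≤ |∑ i ∈ s, Y i (ω i)|) ≤ 2 * Real.exp (- (t ^ 2 / (4 * V))) := by
  have h1 := tail_bound_opt hw s Y hb (fun i hi => (hE i hi).le) hV hV0 ht hbt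
  have h2 := tail_bound_opt (t := t) hw s (fun i a => - Y i a) (b := b) (V := V)
    (fun i hi a => by rw [abs_neg]; exact hb i hi a)
    (fun i hi => by rw [Ex_neg, hE i hi, neg_zero])
    (by simpa using hV) hV0 ht hbt
  have h3 : Pr (PW w) (fun ω => t ≤ |∑ i ∈ s, Y i (ω i)|)
      ≤ Pr (PW w) (fun ω => t ≤ ∑ i ∈ s, Y i (ω i) ∨ t ≤ ∑ i ∈ s, - Y i (ω i)) := by
    refine Pr_mono (PW_isP hw) (fun ω h => ?_)
    rw [Finset.sum_neg_distrib]
    exact le_abs.1 h
  have h4 := Pr_or_le (PW_isP hw) (fun ω => t ≤ ∑ i ∈ s, Y i (ω i))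
    (fun ω => t ≤ ∑ i ∈ s, - Y i (ω i))
  linarith

/-- upper tail for variables in `[0,1]`, with an arbitrary base `L ≥ 1` -/
theorem tail_base {w : ∀ i, A i → ℝ} (hw : ∀ i, IsP (w i)) (s : Finset I)
    (X : ∀ i, A i → ℝ) {L M t : ℝ} (hL : 1 ≤ L) (h0 : ∀ i ∈ s, ∀ a, 0 ≤ X i a)
    (h1 : ∀ i ∈ s, ∀ a, X i a ≤ 1) (hM : ∑ i ∈ s, Ex (w i) (X i) ≤ M) :
    Pr (PW w) (fun ω => t ≤ ∑ i ∈ s, X i (ω i))
      ≤ Real.exp ((L - 1) * M - Real.log L * t) := by
  have hL0 : 0 < L := lt_of_lt_of_le one_pos hL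
  have hlog : 0 ≤ Real.log L := Real.log_nonneg hL
  have hA : Pr (PW w) (fun ω => t ≤ ∑ i ∈ s, X i (ω i))
      ≤ Pr (PW w) (fun ω => Real.log L * t ≤ Real.log L * ∑ i ∈ s, X i (ω i)) :=
    Pr_mono (PW_isP hw) (fun ω h => mul_le_mul_of_nonneg_left h hlog)
  refine hA.trans ((exp_markov (PW_isP hw) _ _).trans ?_)
  have h2 : ∀ ω : ∀ i, A i, Real.exp (Real.log L * ∑ i ∈ s, X i (ω i))
      = ∏ i ∈ s, Real.exp (Real.log L * X i (ω i)) := fun ω => by
    rw [Finset.mul_sum, Real.exp_sum]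
  rw [Ex_congr h2, Ex_prod hw s (fun i a => Real.exp (Real.log L * X i a))]
  have h3 : ∀ i ∈ s, Ex (w i) (fun a => Real.exp (Real.log L * X i a))
      ≤ Real.exp ((L - 1) * Ex (w i) (X i)) := by
    intro i hi
    have h4 : Ex (w i) (fun a => Real.exp (Real.log L * X i a))
        ≤ Ex (w i) (fun a => 1 + (L - 1) * X i a) := by
      refine Ex_mono (hw i) (fun a => ?_)
      have h6 : Real.exp (Real.log L * X i a) = L ^ (X i a) := by
        rw [Real.rpow_def_of_pos hL0]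
      have h7 : L ^ (X i a) ≤ 1 + X i a * (L - 1) := by
        have := rpow_one_add_le_one_add_mul_self (s := L - 1) (p := X i a)
          (by linarith) (h0 i hi a) (h1 i hi a)
        have h8 : 1 + (L - 1) = L := by ring
        rw [h8] at this
        exact this
      rw [h6]
      linarith
    rw [Ex_add, Ex_const (hw i), Ex_mul_left] at h4
    have h9 := Real.add_one_le_exp ((L - 1) * Ex (w i) (X i))
    linarith
  have h5 : ∏ i ∈ s, Ex (w i) (fun a => Real.exp (Real.log L * X i a))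
      ≤ ∏ i ∈ s, Real.exp ((L - 1) * Ex (w i) (X i)) :=
    Finset.prod_le_prod (fun i _ => Ex_nonneg (hw i) (fun a => (Real.exp_pos _).le)) h3
  rw [← Real.exp_sum, ← Finset.mul_sum] at h5
  have h6 : Real.exp ((L - 1) * ∑ i ∈ s, Ex (w i) (X i)) ≤ Real.exp ((L - 1) * M) :=
    Real.exp_le_exp.2 (mul_le_mul_of_nonneg_left hM (by linarith))
  calc Real.exp (-(Real.log L * t)) * ∏ i ∈ s, Ex (w i) (fun a => Real.exp (Real.log L * X i a))
      ≤ Real.exp (-(Real.log L * t)) * Real.exp ((L - 1) * M) :=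
        mul_le_mul_of_nonneg_left (h5.trans h6) (Real.exp_pos _).le
    _ = Real.exp ((L - 1) * M - Real.log L * t) := by rw [← Real.exp_add]; ring_nf

/-- lower tail for nonnegative variables in `[0,1]` -/
theorem tail_lower {w : ∀ i, A i → ℝ} (hw : ∀ i, IsP (w i)) (s : Finset I)
    (X : ∀ i, A i → ℝ) {M : ℝ} (h0 : ∀ i ∈ s, ∀ a, 0 ≤ X i a)
    (h1 : ∀ i ∈ s, ∀ a, X i a ≤ 1) (hM : M ≤ ∑ i ∈ s, Ex (w i) (X i)) :
    Pr (PW w) (fun ω => ∑ i ∈ s, X i (ω i) ≤ M / 2) ≤ Real.exp (- (M / 16)) := by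
  rcases lt_or_ge M 0 with hneg | hM0
  · exact (Pr_le_one (PW_isP hw) _).trans (Real.one_le_exp (by linarith))
  have hsq : ∀ i ∈ s, Ex (w i) (fun a => Real.exp (- X i a / 2))
      ≤ Real.exp (- (3 / 8) * Ex (w i) (X i)) := by
    intro i hi
    have h4 : Ex (w i) (fun a => Real.exp (- X i a / 2))
        ≤ Ex (w i) (fun a => 1 + (- (3 / 8) * X i a)) := by
      refine Ex_mono (hw i) (fun a => ?_)
      have hx0 := h0 i hi a
      have hx1 := h1 i hi a
      have h5 : |- X i a / 2| ≤ 1 := by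
        rw [abs_le]; constructor <;> linarith
      have h6 := Real.abs_exp_sub_one_sub_id_le h5
      have h7 := (Real.exp_bound' (x := X i a / 2) (by linarith) (by linarith) (n := 2)
        (by norm_num))
      -- use exp(-y) ≤ 1 - y + y^2/2 for y ≥ 0
      have h8 : Real.exp (-(X i a / 2)) ≤ 1 - X i a / 2 + (X i a / 2) ^ 2 / 2 := by
        have := Real.quadratic_le_exp_of_nonneg (x := X i a / 2) (by linarith)
        have hpos : 0 < 1 + X i a / 2 + (X i a / 2) ^ 2 / 2 := by positivity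
        rw [Real.exp_neg]
        have h9 : (Real.exp (X i a / 2))⁻¹ ≤ (1 + X i a / 2 + (X i a / 2) ^ 2 / 2)⁻¹ :=
          inv_anti₀ hpos this
        refine h9.trans ?_
        rw [inv_le_iff_one_le_mul₀ hpos]
        nlinarith [sq_nonneg (X i a), mul_nonneg hx0 hx0, sq_nonneg (X i a ^ 2)]
      have h10 : - X i a / 2 = -(X i a / 2) := by ring
      rw [h10]
      nlinarith
    rw [Ex_add, Ex_const (hw i), Ex_mul_left] at h4
    have h9 := Real.add_one_le_exp (- (3 / 8) * Ex (w i) (X i))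
    linarith
  have hA : Pr (PW w) (fun ω => ∑ i ∈ s, X i (ω i) ≤ M / 2)
      ≤ Pr (PW w) (fun ω => - (M / 4) ≤ ∑ i ∈ s, (- X i (ω i) / 2)) := by
    refine Pr_mono (PW_isP hw) (fun ω h => ?_)
    rw [← Finset.sum_div, Finset.sum_neg_distrib]
    linarith
  refine hA.trans ((exp_markov (PW_isP hw) _ _).trans ?_)
  have h2 : ∀ ω : ∀ i, A i, Real.exp (∑ i ∈ s, (- X i (ω i) / 2))
      = ∏ i ∈ s, Real.exp (- X i (ω i) / 2) := fun ω => Real.exp_sum _ _
  rw [Ex_congr h2, Ex_prod hw s (fun i a => Real.exp (- X i a / 2))]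
  have h5 : ∏ i ∈ s, Ex (w i) (fun a => Real.exp (- X i a / 2))
      ≤ ∏ i ∈ s, Real.exp (- (3 / 8) * Ex (w i) (X i)) :=
    Finset.prod_le_prod (fun i _ => Ex_nonneg (hw i) (fun a => (Real.exp_pos _).le)) hsq
  rw [← Real.exp_sum, ← Finset.mul_sum] at h5
  have h6 : Real.exp (- (3 / 8) * ∑ i ∈ s, Ex (w i) (X i)) ≤ Real.exp (- (3 / 8) * M) :=
    Real.exp_le_exp.2 (by linarith)
  have h7 : Real.exp (- -(M / 4)) * ∏ i ∈ s, Ex (w i) (fun a => Real.exp (- X i a / 2))
      ≤ Real.exp (- -(M / 4)) * Real.exp (- (3 / 8) * M) :=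
    mul_le_mul_of_nonneg_left (h5.trans h6) (Real.exp_pos _).le
  refine h7.trans ?_
  rw [← Real.exp_add]
  exact Real.exp_le_exp.2 (by linarith)

end Tail

end Pool.LarProb
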