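import Pool.Agent.LarH.ProbMore

/-!
# Tail of a general bilinear form in independent coordinates
-/

set_option autoImplicit false
set_option linter.unusedVariables false
set_option linter.unusedSectionVars false

namespace Pool.LarProb

open Finset

section Bil

variable {I : Type*} [Fintype I] [DecidableEq I] {A : I → Type*} [∀ i, Fintype (A i)] {n : ℕ}

/-- the contribution of the earlier coordinates to the value `a` at the coordinate `t` -/
noncomputable def preB (o : I ≃ Fin n) (F : ∀ y t : I, A y → A t → ℝ) (t : I)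
    (ω : ∀ i, A i) (a : A t) : ℝ := ∑ y ∈ univ.filter (fun y => o y < o t), F y t (ω y) a

theorem preB_update (o : I ≃ Fin n) (F : ∀ y t : I, A y → A t → ℝ) {t j : I}
    (h : o t ≤ o j) (ω : ∀ i, A i) (x : A j) (a : A t) :
    preB o F t (Function.update ω j x) a = preB o F t ω a := by
  unfold preB
  refine Finset.sum_congr rfl (fun y hy => ?_)
  have hy' : y ≠ j := by
    rintro rfl
    exact absurd (Finset.mem_filter.1 hy).2 (not_lt.2 h)
  rw [Function.update_of_ne hy']

/-- **Tail of a bilinear form**, one sided sum. -/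
theorem bil_tail_aux (o : I ≃ Fin n) {w : ∀ i, A i → ℝ} (hw : ∀ i, IsP (w i))
    (F : ∀ y t : I, A y → A t → ℝ) (X : ∀ i, A i → ℝ) {rho B T K0 Mx Nx : ℝ}
    (hF0 : ∀ y t x a, 0 ≤ F y t x a) (hF1 : ∀ y t x a, F y t x a ≤ 1)
    (hX0 : ∀ i a, 0 ≤ X i a) (hX1 : ∀ i a, X i a ≤ 1)
    (hcol : ∀ t a, ∑ y, Ex (w y) (fun x => F y t x a) ≤ rho)
    (hrow : ∀ y x, ∑ t, Ex (w t) (fun a => F y t x a) ≤ rho * X y x)
    (hN : ∑ t, (Fintype.card (A t) : ℝ) ≤ Nx)
    (hB : 0 < B) (hMx : ∑ i, Ex (w i) (X i) ≤ Mx) (hrho : 0 ≤ rho) :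
    Pr (PW w) (fun ω => B * T ≤ ∑ t, preB o F t ω (ω t))
      ≤ Nx * Real.exp (rho - Real.log 2 * B) + Real.exp (Mx - Real.log 2 * K0)
        + Real.exp (rho * K0 / B - Real.log 2 * T) := by
  classical
  have hlog2 : 0 < Real.log 2 := Real.log_pos (by norm_num)
  -- the truncated prefixes
  set b : ∀ t : I, (∀ i, A i) → A t → ℝ := fun t ω a => min (preB o F t ω a) B with hb
  have ha0 : ∀ t ω a, 0 ≤ preB o F t ω a := fun t ω a =>
    Finset.sum_nonneg (fun y _ => hF0 _ _ _ _)
  have hb0 : ∀ t ω a, 0 ≤ b t ω a := fun t ω a => le_min (ha0 t ω a) hB.le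
  have hbB : ∀ t ω a, b t ω a ≤ B := fun t ω a => min_le_right _ _
  -- the exponential process
  set E : I → (∀ i, A i) → ℝ := fun t ω =>
    Real.log 2 * (b t ω (ω t) / B) - Ex (w t) (fun a => b t ω a / B) with hE
  set Ps : ℕ → (∀ i, A i) → ℝ := fun j ω =>
    Real.exp (∑ t ∈ univ.filter (fun t : I => (o t : ℕ) < j), E t ω) with hPs
  have hmain : Ex (PW w) (fun ω => Real.exp (∑ t, E t ω)) ≤ 1 := by
    rcases Nat.eq_zero_or_pos n with hn | hn
    · subst hn
      have hemp : (univ : Finset I) = ∅ := by
        rw [Finset.eq_empty_iff_forall_notMem]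
        intro i _
        exact (o i).elim0
      have : ∀ ω : ∀ i, A i, Real.exp (∑ t, E t ω) = 1 := fun ω => by
        rw [hemp]; simp
      rw [Ex_congr this, Ex_const (PW_isP hw)]
    · set e : ℕ → I := fun j => o.symm (if h : j < n then ⟨j, h⟩ else ⟨0, hn⟩) with he
      have hs := seq_bound hw e n Ps (fun _ => 1) (fun _ _ => zero_le_one) (by
        intro j hj ω
        have hoj : ((o (e j) : Fin n) : ℕ) = j := by simp [he, hj]
        set u : I := e j with hu
        have hsplit : ∀ ω' : ∀ i, A i, Ps (j + 1) ω' = Ps j ω' * Real.exp (E u ω') := by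
          intro ω'
          simp only [hPs]
          rw [← Real.exp_add]
          congr 1
          have : univ.filter (fun t : I => (o t : ℕ) < j + 1)
              = insert u (univ.filter (fun t : I => (o t : ℕ) < j)) := by
            ext t
            simp only [Finset.mem_filter, Finset.mem_univ, true_and, Finset.mem_insert]
            constructor
            · intro h
              rcases Nat.lt_succ_iff_lt_or_eq.1 h with h1 | h1
              · exact Or.inr h1
              · refine Or.inl (o.injective (Fin.ext ?_))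
                rw [h1, hoj]
            · rintro (h | h)
              · rw [h, hoj]; exact Nat.lt_succ_self j
              · exact Nat.lt_succ_of_lt h
          rw [this, Finset.sum_insert (by simp [hoj])]
          ring
        have hinv : ∀ a, Ps j (Function.update ω u a) = Ps j ω := by
          intro a
          simp only [hPs]
          congr 1
          refine Finset.sum_congr rfl (fun t ht => ?_)
          have htj : (o t : ℕ) < j := (Finset.mem_filter.1 ht).2
          have htne : t ≠ u := by
            intro h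
            rw [h, hoj] at htj
            exact lt_irrefl _ htj
          have hle : o t ≤ o u := by
            rw [Fin.le_def, hoj]; exact htj.le
          simp only [hE, hb, preB_update o F hle, Function.update_of_ne htne]
        have hEup : ∀ a, E u (Function.update ω u a)
            = Real.log 2 * (b u ω a / B) - Ex (w u) (fun a => b u ω a / B) := by
          intro a
          simp only [hE, hb, preB_update o F le_rfl, Function.update_self]
        set m := Ex (w u) (fun a => b u ω a / B) with hm
        have hfun : ∀ a, Ps (j + 1) (Function.update ω u a)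
            = (Ps j ω * Real.exp (- m)) * Real.exp (Real.log 2 * (b u ω a / B)) := by
          intro a
          rw [hsplit, hinv, hEup, sub_eq_add_neg, Real.exp_add]
          ring
        rw [Ex_congr hfun, Ex_mul_left, one_mul]
        have hexp : Ex (w u) (fun a => Real.exp (Real.log 2 * (b u ω a / B)))
            ≤ Real.exp m := by
          have h1 : Ex (w u) (fun a => Real.exp (Real.log 2 * (b u ω a / B)))
              ≤ Ex (w u) (fun a => 1 + b u ω a / B) := by
            refine Ex_mono (hw _) (fun a => ?_)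
            exact exp_log_two_mul_le (div_nonneg (hb0 _ _ _) hB.le)
              ((div_le_one hB).2 (hbB _ _ _))
          rw [Ex_add, Ex_const (hw _)] at h1
          have h4 := Real.add_one_le_exp m
          linarith
        have hpos : 0 ≤ Ps j ω * Real.exp (- m) := by positivity
        calc Ps j ω * Real.exp (- m) * _
            ≤ Ps j ω * Real.exp (- m) * Real.exp m :=
              mul_le_mul_of_nonneg_left hexp hpos
          _ = Ps j ω := by
              rw [mul_assoc, ← Real.exp_add]
              simp)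
      simp only [Finset.prod_const_one, one_mul] at hs
      have h0 : Ex (PW w) (Ps 0) = 1 := by
        have : ∀ ω : ∀ i, A i, Ps 0 ω = 1 := fun ω => by simp [hPs]
        rw [Ex_congr this, Ex_const (PW_isP hw)]
      rw [h0] at hs
      refine le_trans (le_of_eq (Ex_congr (fun ω => ?_))) hs
      simp only [hPs]
      congr 1
      have : univ.filter (fun t : I => (o t : ℕ) < n) = univ := by
        ext t; simp
      rw [this]
  -- the three bad events
  have hcover : Pr (PW w) (fun ω => B * T ≤ ∑ t, preB o F t ω (ω t))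
      ≤ Pr (PW w) (fun ω =>
          ((∃ t ∈ (univ : Finset I), ∃ a ∈ (univ : Finset (A t)), B ≤ preB o F t ω a)
          ∨ K0 ≤ ∑ i, X i (ω i)) ∨ Real.log 2 * T - rho * K0 / B ≤ ∑ t, E t ω) := by
    refine Pr_mono (PW_isP hw) (fun ω h => ?_)
    by_cases h1 : ∃ t ∈ (univ : Finset I), ∃ a ∈ (univ : Finset (A t)), B ≤ preB o F t ω a
    · exact Or.inl (Or.inl h1)
    by_cases h2 : K0 ≤ ∑ i, X i (ω i)
    · exact Or.inl (Or.inr h2)
    refine Or.inr ?_
    push Not at h1 h2
    have hbt : ∀ t a, b t ω a = preB o F t ω a :=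
      fun t a => min_eq_left (h1 t (mem_univ t) a (mem_univ a)).le
    have hsum : ∑ t, E t ω = Real.log 2 * ((∑ t, preB o F t ω (ω t)) / B)
        - (∑ t, Ex (w t) (fun a => preB o F t ω a)) / B := by
      simp only [hE, hbt]
      rw [Finset.sum_sub_distrib, ← Finset.mul_sum, Finset.sum_div, Finset.sum_div]
      congr 1
      refine Finset.sum_congr rfl (fun t _ => ?_)
      have : ∀ a, preB o F t ω a / B = preB o F t ω a * B⁻¹ := fun a => div_eq_mul_inv _ _
      rw [Ex_congr this, Ex_mul_right, div_eq_mul_inv]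
    have hpre : ∑ t, Ex (w t) (fun a => preB o F t ω a) ≤ rho * K0 := by
      have h3 : ∀ t, Ex (w t) (fun a => preB o F t ω a)
          ≤ ∑ y, Ex (w t) (fun a => F y t (ω y) a) := by
        intro t
        have h4 : Ex (w t) (fun a => preB o F t ω a)
            = ∑ y ∈ univ.filter (fun y => o y < o t), Ex (w t) (fun a => F y t (ω y) a) := by
          unfold preB
          exact Ex_sum (w t) _ _
        rw [h4]
        exact Finset.sum_le_sum_of_subset_of_nonneg (Finset.filter_subset _ _)
          (fun y _ _ => Ex_nonneg (hw t) (fun a => hF0 _ _ _ _))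
      have h5 := Finset.sum_le_sum (fun t (_ : t ∈ (univ : Finset I)) => h3 t)
      rw [Finset.sum_comm] at h5
      have h4 : ∑ y, ∑ t, Ex (w t) (fun a => F y t (ω y) a) ≤ ∑ y, rho * X y (ω y) :=
        Finset.sum_le_sum (fun y _ => hrow y (ω y))
      rw [← Finset.mul_sum] at h4
      have h6 : rho * ∑ y, X y (ω y) ≤ rho * K0 := mul_le_mul_of_nonneg_left h2.le hrho
      linarith
    rw [hsum]
    have h6 : T ≤ (∑ t, preB o F t ω (ω t)) / B := by
      rw [le_div_iff₀ hB, mul_comm]; exact h
    have h7 : Real.log 2 * T ≤ Real.log 2 * ((∑ t, preB o F t ω (ω t)) / B) :=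
      mul_le_mul_of_nonneg_left h6 hlog2.le
    have h8 : (∑ t, Ex (w t) (fun a => preB o F t ω a)) / B ≤ rho * K0 / B :=
      div_le_div_of_nonneg_right hpre hB.le
    linarith
  refine hcover.trans ((Pr_or_le (PW_isP hw) _ _).trans ?_)
  have hE1 : Pr (PW w) (fun ω =>
        (∃ t ∈ (univ : Finset I), ∃ a ∈ (univ : Finset (A t)), B ≤ preB o F t ω a)
          ∨ K0 ≤ ∑ i, X i (ω i))
      ≤ Nx * Real.exp (rho - Real.log 2 * B) + Real.exp (Mx - Real.log 2 * K0) := by
    refine (Pr_or_le (PW_isP hw) _ _).trans (add_le_add ?_ ?_)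
    · have h0 : ∀ t ∈ (univ : Finset I), Pr (PW w)
          (fun ω => ∃ a ∈ (univ : Finset (A t)), B ≤ preB o F t ω a)
          ≤ (Fintype.card (A t) : ℝ) * Real.exp (rho - Real.log 2 * B) := by
        intro t _
        have := Pr_exists_le_card_mul (PW_isP hw) (univ : Finset (A t))
          (fun a ω => B ≤ preB o F t ω a) (q := Real.exp (rho - Real.log 2 * B)) (by
            intro a _
            have h := tail_base (t := B) hw (univ.filter (fun y => o y < o t))
              (fun y x => F y t x a) (L := 2) (M := rho) (by norm_num)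
              (fun y _ x => hF0 _ _ _ _) (fun y _ x => hF1 _ _ _ _)
              ((Finset.sum_le_sum_of_subset_of_nonneg (Finset.filter_subset _ _)
                (fun i _ _ => Ex_nonneg (hw i) (fun x => hF0 _ _ _ _))).trans (hcol t a))
            refine h.trans (le_of_eq ?_)
            congr 1
            ring)
        rwa [Finset.card_univ] at this
      refine (Pr_exists_le (PW_isP hw) _ _).trans ((Finset.sum_le_sum h0).trans ?_)
      rw [← Finset.sum_mul]
      exact mul_le_mul_of_nonneg_right hN (Real.exp_pos _).le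
    · have h := tail_base (t := K0) hw (univ : Finset I) X (L := 2) (M := Mx)
        (by norm_num) (fun i _ a => hX0 i a) (fun i _ a => hX1 i a) hMx
      refine h.trans (le_of_eq ?_)
      congr 1
      ring
  have hE2 : Pr (PW w) (fun ω => Real.log 2 * T - rho * K0 / B ≤ ∑ t, E t ω)
      ≤ Real.exp (rho * K0 / B - Real.log 2 * T) := by
    refine (exp_markov (PW_isP hw) _ _).trans ?_
    have h1 : - (Real.log 2 * T - rho * K0 / B) = rho * K0 / B - Real.log 2 * T := by ring
    rw [h1]
    calc Real.exp (rho * K0 / B - Real.log 2 * T)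
          * Ex (PW w) (fun ω => Real.exp (∑ t, E t ω))
        ≤ Real.exp (rho * K0 / B - Real.log 2 * T) * 1 :=
          mul_le_mul_of_nonneg_left hmain (Real.exp_pos _).le
      _ = _ := mul_one _
  linarith

/-- **Tail of a bilinear form** `∑_{t ≠ y} F y t (ω y) (ω t)` in independent coordinates. -/
theorem bil_tail {w : ∀ i, A i → ℝ} (hw : ∀ i, IsP (w i))
    (F : ∀ y t : I, A y → A t → ℝ) (X : ∀ i, A i → ℝ) {rho B T K0 Mx Nx : ℝ}
    (hF0 : ∀ y t x a, 0 ≤ F y t x a) (hF1 : ∀ y t x a, F y t x a ≤ 1)
    (hX0 : ∀ i a, 0 ≤ X i a) (hX1 : ∀ i a, X i a ≤ 1)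
    (hcol : ∀ t a, ∑ y, Ex (w y) (fun x => F y t x a) ≤ rho * X t a)
    (hrow : ∀ y x, ∑ t, Ex (w t) (fun a => F y t x a) ≤ rho * X y x)
    (hdiag : ∀ y x, F y y x x = 0)
    (hN : ∑ t, (Fintype.card (A t) : ℝ) ≤ Nx)
    (hB : 0 < B) (hMx : ∑ i, Ex (w i) (X i) ≤ Mx) (hrho : 0 ≤ rho) :
    Pr (PW w) (fun ω => 2 * (B * T) ≤ ∑ t, ∑ y, F y t (ω y) (ω t))
      ≤ 2 * (Nx * Real.exp (rho - Real.log 2 * B) + Real.exp (Mx - Real.log 2 * K0)
        + Real.exp (rho * K0 / B - Real.log 2 * T)) := by
  classical
  set o : I ≃ Fin (Fintype.card I) := Fintype.equivFin I with ho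
  have hle : ∀ t a, rho * X t a ≤ rho := fun t a => by
    have := mul_le_mul_of_nonneg_left (hX1 t a) hrho
    linarith
  have h1 := bil_tail_aux (T := T) (K0 := K0) o hw F X hF0 hF1 hX0 hX1
    (fun t a => (hcol t a).trans (hle t a)) hrow hN hB hMx hrho
  have h2 := bil_tail_aux (T := T) (K0 := K0) o hw (fun y t x a => F t y a x) X
    (fun y t x a => hF0 _ _ _ _) (fun y t x a => hF1 _ _ _ _) hX0 hX1
    (fun t a => (hrow t a).trans (hle t a)) (fun y x => hcol y x) hN hB hMx hrho
  have hsplit : ∀ ω : ∀ i, A i, ∑ t, ∑ y, F y t (ω y) (ω t)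
      = ∑ t, preB o F t ω (ω t) + ∑ t, preB o (fun y t x a => F t y a x) t ω (ω t) := by
    intro ω
    have hA : ∑ t, preB o (fun y t x a => F t y a x) t ω (ω t)
        = ∑ t, ∑ y ∈ univ.filter (fun y => o t < o y), F y t (ω y) (ω t) := by
      unfold preB
      have h6 : ∀ t, ∑ y ∈ univ.filter (fun y => o y < o t), F t y (ω t) (ω y)
          = ∑ y, if o y < o t then F t y (ω t) (ω y) else 0 :=
        fun t => Finset.sum_filter _ _
      have h7 : ∀ t, ∑ y ∈ univ.filter (fun y => o t < o y), F y t (ω y) (ω t)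
          = ∑ y, if o t < o y then F y t (ω y) (ω t) else 0 :=
        fun t => Finset.sum_filter _ _
      rw [Finset.sum_congr rfl (fun t _ => h6 t), Finset.sum_congr rfl (fun t _ => h7 t),
        Finset.sum_comm]
    rw [hA, ← Finset.sum_add_distrib]
    refine Finset.sum_congr rfl (fun t _ => ?_)
    unfold preB
    have h3 : ∑ y, F y t (ω y) (ω t)
        = (∑ y ∈ univ.filter (fun y => o y < o t), F y t (ω y) (ω t))
        + ∑ y ∈ univ.filter (fun y => ¬ o y < o t), F y t (ω y) (ω t) :=
      (Finset.sum_filter_add_sum_filter_not univ _ _).symm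
    rw [h3]
    congr 1
    symm
    refine Finset.sum_subset (fun y hy => ?_) (fun y hy hy' => ?_)
    · rw [Finset.mem_filter] at hy ⊢
      exact ⟨hy.1, not_lt.2 hy.2.le⟩
    · rw [Finset.mem_filter] at hy hy'
      have h4 : o y = o t := by
        refine le_antisymm ?_ (not_lt.1 hy.2)
        by_contra h5
        exact hy' ⟨hy.1, not_le.1 h5⟩
      have h5 : y = t := o.injective h4
      subst h5
      exact hdiag y (ω y)
  have h3 : Pr (PW w) (fun ω => 2 * (B * T) ≤ ∑ t, ∑ y, F y t (ω y) (ω t))
      ≤ Pr (PW w) (fun ω => B * T ≤ ∑ t, preB o F t ω (ω t)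
          ∨ B * T ≤ ∑ t, preB o (fun y t x a => F t y a x) t ω (ω t)) := by
    refine Pr_mono (PW_isP hw) (fun ω h => ?_)
    rw [hsplit] at h
    by_contra hcon
    push Not at hcon
    linarith [hcon.1, hcon.2]
  have h4 := Pr_or_le (PW_isP hw) (fun ω => B * T ≤ ∑ t, preB o F t ω (ω t))
    (fun ω => B * T ≤ ∑ t, preB o (fun y t x a => F t y a x) t ω (ω t))
  linarith

end Bil

end Pool.LarProb
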