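import Pool.Agent.LarH.ProbPi

/-!
# Sequential supermartingale lemma, quadratic tail, dependent events with a colouring
-/

set_option autoImplicit false
set_option linter.unusedVariables false
set_option linter.unusedSectionVars false

namespace Pool.LarProb

open Finset

section Seq

variable {I : Type*} [Fintype I] [DecidableEq I] {A : I → Type*} [∀ i, Fintype (A i)]

/-- sequential supermartingale lemma: the coordinates `e 0, e 1, ..., e (M-1)` are resampled one
after the other -/
theorem seq_bound {w : ∀ i, A i → ℝ} (hw : ∀ i, IsP (w i)) (e : ℕ → I) (M : ℕ)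
    (Ps : ℕ → (∀ i, A i) → ℝ) (c : ℕ → ℝ) (hc : ∀ j < M, 0 ≤ c j)
    (hstep : ∀ j < M, ∀ ω : ∀ i, A i,
      Ex (w (e j)) (fun a => Ps (j + 1) (Function.update ω (e j) a)) ≤ c j * Ps j ω) :
    Ex (PW w) (Ps M) ≤ (∏ j ∈ range M, c j) * Ex (PW w) (Ps 0) := by
  induction M with
  | zero => simp
  | succ M ih =>
    rw [Finset.prod_range_succ]
    have h1 : Ex (PW w) (Ps (M + 1)) ≤ Ex (PW w) (fun ω => c M * Ps M ω) := by
      rw [← Ex_update hw (e M)]
      exact Ex_mono (PW_isP hw) (fun ω => hstep M (Nat.lt_succ_self M) ω)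
    rw [Ex_mul_left] at h1
    have h2 := ih (fun j hj => hc j (Nat.lt_succ_of_lt hj))
      (fun j hj => hstep j (Nat.lt_succ_of_lt hj))
    have h3 := mul_le_mul_of_nonneg_left h2 (hc M (Nat.lt_succ_self M))
    calc Ex (PW w) (Ps (M + 1)) ≤ c M * Ex (PW w) (Ps M) := h1
      _ ≤ c M * ((∏ j ∈ range M, c j) * Ex (PW w) (Ps 0)) := h3
      _ = _ := by ring

end Seq

section Quad

/-- `2 ^ x ≤ 1 + x` on `[0,1]`, in exponential form -/
theorem exp_log_two_mul_le {x : ℝ} (h0 : 0 ≤ x) (h1 : x ≤ 1) :
    Real.exp (Real.log 2 * x) ≤ 1 + x := by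
  have h := rpow_one_add_le_one_add_mul_self (s := 1) (p := x) (by norm_num) h0 h1
  have h2 : (1 : ℝ) + 1 = 2 := by norm_num
  rw [h2, Real.rpow_def_of_pos (by norm_num : (0 : ℝ) < 2)] at h
  linarith

variable {I : Type*} [Fintype I] [DecidableEq I] {A : I → Type*} [∀ i, Fintype (A i)] {n : ℕ}

/-- the sum of the earlier neighbours of `t` (the order is given by `o`) -/
noncomputable def prefA (o : I ≃ Fin n) (G : I → I → ℝ) (X : ∀ i, A i → ℝ) (t : I)
    (ω : ∀ i, A i) : ℝ := ∑ y ∈ univ.filter (fun y => o y < o t), G y t * X y (ω y)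

theorem prefA_update (o : I ≃ Fin n) (G : I → I → ℝ) (X : ∀ i, A i → ℝ) {t j : I}
    (h : o t ≤ o j) (ω : ∀ i, A i) (a : A j) :
    prefA o G X t (Function.update ω j a) = prefA o G X t ω := by
  unfold prefA
  refine Finset.sum_congr rfl (fun y hy => ?_)
  have hy' : y ≠ j := by
    rintro rfl
    exact absurd (Finset.mem_filter.1 hy).2 (not_lt.2 h)
  rw [Function.update_of_ne hy']

/-- **Tail of a quadratic form** with a sparse random set (one sided sum). -/
theorem quad_tail_aux (o : I ≃ Fin n) {w : ∀ i, A i → ℝ} (hw : ∀ i, IsP (w i)) (G : I → I → ℝ)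
    (X : ∀ i, A i → ℝ) {p R B T K0 Mx : ℝ} (hX0 : ∀ i a, 0 ≤ X i a) (hX1 : ∀ i a, X i a ≤ 1)
    (hXp : ∀ i, Ex (w i) (X i) ≤ p) (hp : 0 ≤ p) (hG0 : ∀ i j, 0 ≤ G i j)
    (hG1 : ∀ i j, G i j ≤ 1) (hrow : ∀ i, ∑ j, G i j ≤ R) (hcol : ∀ j, ∑ i, G i j ≤ R)
    (hB : 0 < B) (hMx : ∑ i, Ex (w i) (X i) ≤ Mx) (hR : 0 ≤ R) :
    Pr (PW w) (fun ω => B * T ≤ ∑ t, X t (ω t) * prefA o G X t ω)
      ≤ n * Real.exp (p * R - Real.log 2 * B) + Real.exp (Mx - Real.log 2 * K0)
        + Real.exp (p * R * K0 / B - Real.log 2 * T) := by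
  classical
  have hlog2 : 0 < Real.log 2 := Real.log_pos (by norm_num)
  -- the truncated prefixes
  set b : I → (∀ i, A i) → ℝ := fun t ω => min (prefA o G X t ω) B with hb
  have ha0 : ∀ t ω, 0 ≤ prefA o G X t ω := fun t ω =>
    Finset.sum_nonneg (fun y _ => mul_nonneg (hG0 _ _) (hX0 _ _))
  have hb0 : ∀ t ω, 0 ≤ b t ω := fun t ω => le_min (ha0 t ω) hB.le
  have hbB : ∀ t ω, b t ω ≤ B := fun t ω => min_le_right _ _
  -- the exponential process
  set E : I → (∀ i, A i) → ℝ := fun t ω =>
    Real.log 2 * (X t (ω t) * b t ω / B) - p * (b t ω / B) with hE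
  set Ps : ℕ → (∀ i, A i) → ℝ := fun j ω =>
    Real.exp (∑ t ∈ univ.filter (fun t : I => (o t : ℕ) < j), E t ω) with hPs
  have hmain : Ex (PW w) (fun ω => Real.exp (∑ t, E t ω)) ≤ 1 := by
    rcases Nat.eq_zero_or_pos n with hn | hn
    · subst hn
      have hemp : (univ : Finset I) = ∅ := by
        rw [Finset.eq_empty_iff_forall_notMem]
        intro i _
        exact (o i).elim0
      have : ∀ ω : ∀ i, A i, Real.exp (∑ t, E t ω) = 1 := fun ω => by
        rw [hemp]; simp
      rw [Ex_congr this, Ex_const (PW_isP hw)]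
    · set e : ℕ → I := fun j => o.symm (if h : j < n then ⟨j, h⟩ else ⟨0, hn⟩) with he
      have hs := seq_bound hw e n Ps (fun _ => 1) (fun _ _ => zero_le_one) (by
        intro j hj ω
        have hoj : ((o (e j) : Fin n) : ℕ) = j := by simp [he, hj]
        set u : I := e j with hu
        have hsplit : ∀ ω' : ∀ i, A i, Ps (j + 1) ω' = Ps j ω' * Real.exp (E u ω') := by
          intro ω'
          simp only [hPs]
          rw [← Real.exp_add]
          congr 1
          have : univ.filter (fun t : I => (o t : ℕ) < j + 1)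
              = insert u (univ.filter (fun t : I => (o t : ℕ) < j)) := by
            ext t
            simp only [Finset.mem_filter, Finset.mem_univ, true_and, Finset.mem_insert]
            constructor
            · intro h
              rcases Nat.lt_succ_iff_lt_or_eq.1 h with h1 | h1
              · exact Or.inr h1
              · refine Or.inl (o.injective (Fin.ext ?_))
                rw [h1, hoj]
            · rintro (h | h)
              · rw [h, hoj]; exact Nat.lt_succ_self j
              · exact Nat.lt_succ_of_lt h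
          rw [this, Finset.sum_insert (by simp [hoj])]
          ring
        have hinv : ∀ a, Ps j (Function.update ω u a) = Ps j ω := by
          intro a
          simp only [hPs]
          congr 1
          refine Finset.sum_congr rfl (fun t ht => ?_)
          have htj : (o t : ℕ) < j := (Finset.mem_filter.1 ht).2
          have htne : t ≠ u := by
            intro h
            rw [h, hoj] at htj
            exact lt_irrefl _ htj
          have hle : o t ≤ o u := by
            rw [Fin.le_def, hoj]; exact htj.le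
          simp only [hE, hb, prefA_update o G X hle, Function.update_of_ne htne]
        have hEup : ∀ a, E u (Function.update ω u a)
            = Real.log 2 * (X u a * b u ω / B) - p * (b u ω / B) := by
          intro a
          simp only [hE, hb, prefA_update o G X le_rfl, Function.update_self]
        have hfun : ∀ a, Ps (j + 1) (Function.update ω u a)
            = (Ps j ω * Real.exp (- (p * (b u ω / B))))
              * Real.exp (Real.log 2 * (X u a * b u ω / B)) := by
          intro a
          rw [hsplit, hinv, hEup, sub_eq_add_neg, Real.exp_add]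
          ring
        rw [Ex_congr hfun, Ex_mul_left, one_mul]
        set bb := b u ω / B with hbb
        have hbb0 : 0 ≤ bb := div_nonneg (hb0 _ _) hB.le
        have hbb1 : bb ≤ 1 := (div_le_one hB).2 (hbB _ _)
        have hexp : Ex (w u) (fun a => Real.exp (Real.log 2 * (X u a * b u ω / B)))
            ≤ Real.exp (p * bb) := by
          have h1 : Ex (w u) (fun a => Real.exp (Real.log 2 * (X u a * b u ω / B)))
              ≤ Ex (w u) (fun a => 1 + X u a * bb) := by
            refine Ex_mono (hw _) (fun a => ?_)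
            have h2 : X u a * b u ω / B = X u a * bb := by
              rw [hbb]; ring
            rw [h2]
            exact exp_log_two_mul_le (mul_nonneg (hX0 _ _) hbb0)
              (mul_le_one₀ (hX1 _ _) hbb0 hbb1)
          rw [Ex_add, Ex_const (hw _), Ex_mul_right] at h1
          have h3 := mul_le_mul_of_nonneg_right (hXp u) hbb0
          have h4 := Real.add_one_le_exp (p * bb)
          linarith
        have hpos : 0 ≤ Ps j ω * Real.exp (- (p * bb)) := by positivity
        calc Ps j ω * Real.exp (- (p * bb)) * _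
            ≤ Ps j ω * Real.exp (- (p * bb)) * Real.exp (p * bb) :=
              mul_le_mul_of_nonneg_left hexp hpos
          _ = Ps j ω := by
              rw [mul_assoc, ← Real.exp_add]
              simp)
      simp only [Finset.prod_const_one, one_mul] at hs
      have h0 : Ex (PW w) (Ps 0) = 1 := by
        have : ∀ ω : ∀ i, A i, Ps 0 ω = 1 := fun ω => by simp [hPs]
        rw [Ex_congr this, Ex_const (PW_isP hw)]
      rw [h0] at hs
      refine le_trans (le_of_eq (Ex_congr (fun ω => ?_))) hs
      simp only [hPs]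
      congr 1
      have : univ.filter (fun t : I => (o t : ℕ) < n) = univ := by
        ext t; simp
      rw [this]
  -- the three bad events
  have hcover : Pr (PW w) (fun ω => B * T ≤ ∑ t, X t (ω t) * prefA o G X t ω)
      ≤ Pr (PW w) (fun ω => ((∃ t ∈ (univ : Finset I), B ≤ prefA o G X t ω)
          ∨ K0 ≤ ∑ i, X i (ω i)) ∨ Real.log 2 * T - p * R * K0 / B ≤ ∑ t, E t ω) := by
    refine Pr_mono (PW_isP hw) (fun ω h => ?_)
    by_cases h1 : ∃ t ∈ (univ : Finset I), B ≤ prefA o G X t ω
    · exact Or.inl (Or.inl h1)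
    by_cases h2 : K0 ≤ ∑ i, X i (ω i)
    · exact Or.inl (Or.inr h2)
    refine Or.inr ?_
    push Not at h1 h2
    have hbt : ∀ t, b t ω = prefA o G X t ω := fun t => min_eq_left (h1 t (mem_univ t)).le
    have hsum : ∑ t, E t ω = Real.log 2 * ((∑ t, X t (ω t) * prefA o G X t ω) / B)
        - p * ((∑ t, prefA o G X t ω) / B) := by
      simp only [hE, hbt]
      rw [Finset.sum_sub_distrib, ← Finset.mul_sum, ← Finset.mul_sum, Finset.sum_div,
        Finset.sum_div]
    have hpre : ∑ t, prefA o G X t ω ≤ R * K0 := by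
      have h3 : ∑ t, prefA o G X t ω ≤ ∑ t, ∑ y, G y t * X y (ω y) := by
        refine Finset.sum_le_sum (fun t _ => ?_)
        exact Finset.sum_le_sum_of_subset_of_nonneg (Finset.filter_subset _ _)
          (fun y _ _ => mul_nonneg (hG0 _ _) (hX0 _ _))
      rw [Finset.sum_comm] at h3
      have h4 : ∑ y, ∑ t, G y t * X y (ω y) ≤ ∑ y, R * X y (ω y) := by
        refine Finset.sum_le_sum (fun y _ => ?_)
        rw [← Finset.sum_mul]
        exact mul_le_mul_of_nonneg_right (hrow y) (hX0 _ _)
      rw [← Finset.mul_sum] at h4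
      have h5 : R * ∑ y, X y (ω y) ≤ R * K0 := mul_le_mul_of_nonneg_left h2.le hR
      linarith
    rw [hsum]
    have h6 : T ≤ (∑ t, X t (ω t) * prefA o G X t ω) / B := by
      rw [le_div_iff₀ hB, mul_comm]; exact h
    have h7 : Real.log 2 * T ≤ Real.log 2 * ((∑ t, X t (ω t) * prefA o G X t ω) / B) :=
      mul_le_mul_of_nonneg_left h6 hlog2.le
    have h8 : p * ((∑ t, prefA o G X t ω) / B) ≤ p * R * K0 / B := by
      have h9 : (∑ t, prefA o G X t ω) / B ≤ R * K0 / B :=
        div_le_div_of_nonneg_right hpre hB.le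
      calc p * ((∑ t, prefA o G X t ω) / B) ≤ p * (R * K0 / B) :=
            mul_le_mul_of_nonneg_left h9 hp
        _ = p * R * K0 / B := by ring
    linarith
  refine hcover.trans ((Pr_or_le (PW_isP hw) _ _).trans ?_)
  have hE1 : Pr (PW w) (fun ω => (∃ t ∈ (univ : Finset I), B ≤ prefA o G X t ω)
          ∨ K0 ≤ ∑ i, X i (ω i))
      ≤ n * Real.exp (p * R - Real.log 2 * B) + Real.exp (Mx - Real.log 2 * K0) := by
    refine (Pr_or_le (PW_isP hw) _ _).trans (add_le_add ?_ ?_)
    · have := Pr_exists_le_card_mul (PW_isP hw) (univ : Finset I)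
        (fun t ω => B ≤ prefA o G X t ω) (q := Real.exp (p * R - Real.log 2 * B)) (by
          intro t _
          have h := tail_base (t := B) hw (univ.filter (fun y => o y < o t))
            (fun y a => G y t * X y a) (L := 2) (M := p * R) (by norm_num)
            (fun y _ a => mul_nonneg (hG0 _ _) (hX0 _ _))
            (fun y _ a => mul_le_one₀ (hG1 _ _) (hX0 _ _) (hX1 _ _)) (by
              have h3 : ∑ i ∈ univ.filter (fun y => o y < o t),
                  Ex (w i) (fun a => G i t * X i a) ≤ ∑ i, G i t * p := by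
                refine (Finset.sum_le_sum_of_subset_of_nonneg (Finset.filter_subset _ _)
                  (fun i _ _ => Ex_nonneg (hw i)
                    (fun a => mul_nonneg (hG0 _ _) (hX0 _ _)))).trans ?_
                refine Finset.sum_le_sum (fun i _ => ?_)
                rw [Ex_mul_left]
                exact mul_le_mul_of_nonneg_left (hXp i) (hG0 _ _)
              rw [← Finset.sum_mul] at h3
              have h4 := mul_le_mul_of_nonneg_right (hcol t) hp
              linarith)
          refine h.trans (le_of_eq ?_)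
          congr 1
          ring)
      have hcard : (univ : Finset I).card = n := by
        rw [Finset.card_univ, Fintype.card_congr o, Fintype.card_fin]
      rwa [hcard] at this
    · have h := tail_base (t := K0) hw (univ : Finset I) X (L := 2) (M := Mx)
        (by norm_num) (fun i _ a => hX0 i a) (fun i _ a => hX1 i a) hMx
      refine h.trans (le_of_eq ?_)
      congr 1
      ring
  have hE2 : Pr (PW w) (fun ω => Real.log 2 * T - p * R * K0 / B ≤ ∑ t, E t ω)
      ≤ Real.exp (p * R * K0 / B - Real.log 2 * T) := by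
    refine (exp_markov (PW_isP hw) _ _).trans ?_
    have h1 : - (Real.log 2 * T - p * R * K0 / B) = p * R * K0 / B - Real.log 2 * T := by ring
    rw [h1]
    calc Real.exp (p * R * K0 / B - Real.log 2 * T)
          * Ex (PW w) (fun ω => Real.exp (∑ t, E t ω))
        ≤ Real.exp (p * R * K0 / B - Real.log 2 * T) * 1 :=
          mul_le_mul_of_nonneg_left hmain (Real.exp_pos _).le
      _ = _ := mul_one _
  linarith

/-- **Tail of a quadratic form** with a sparse random set: symmetric `G`, values in `[0,1]`, zero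
diagonal, row sums `≤ R`. -/
theorem quad_tail {w : ∀ i, A i → ℝ} (hw : ∀ i, IsP (w i)) (G : I → I → ℝ)
    (X : ∀ i, A i → ℝ) {p R B T K0 Mx : ℝ} (hX0 : ∀ i a, 0 ≤ X i a) (hX1 : ∀ i a, X i a ≤ 1)
    (hXp : ∀ i, Ex (w i) (X i) ≤ p) (hp : 0 ≤ p) (hG0 : ∀ i j, 0 ≤ G i j)
    (hG1 : ∀ i j, G i j ≤ 1) (hsymm : ∀ i j, G i j = G j i) (hdiag : ∀ i, G i i = 0)
    (hrow : ∀ i, ∑ j, G i j ≤ R) (hB : 0 < B) (hMx : ∑ i, Ex (w i) (X i) ≤ Mx) (hR : 0 ≤ R) :
    Pr (PW w) (fun ω => 2 * B * T ≤ ∑ t, ∑ y, G y t * X y (ω y) * X t (ω t))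
      ≤ Fintype.card I * Real.exp (p * R - Real.log 2 * B)
        + Real.exp (Mx - Real.log 2 * K0)
        + Real.exp (p * R * K0 / B - Real.log 2 * T) := by
  classical
  set o : I ≃ Fin (Fintype.card I) := Fintype.equivFin I with ho
  have h := quad_tail_aux (T := T) (K0 := K0) o hw G X hX0 hX1 hXp hp hG0 hG1 hrow
    (fun j => by
      have : ∑ i, G i j = ∑ i, G j i := Finset.sum_congr rfl (fun i _ => hsymm i j)
      rw [this]; exact hrow j) hB hMx hR
  refine le_trans (Pr_mono (PW_isP hw) (fun ω h1 => ?_)) h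
  have h2 : ∑ t, ∑ y, G y t * X y (ω y) * X t (ω t)
      = 2 * ∑ t, X t (ω t) * prefA o G X t ω := by
    have hlt : ∀ t, ∑ y, G y t * X y (ω y) * X t (ω t)
        = (∑ y ∈ univ.filter (fun y => o y < o t), G y t * X y (ω y) * X t (ω t))
          + ∑ y ∈ univ.filter (fun y => o t < o y), G y t * X y (ω y) * X t (ω t) := by
      intro t
      have h3 : ∑ y, G y t * X y (ω y) * X t (ω t)
          = (∑ y ∈ univ.filter (fun y => o y < o t), G y t * X y (ω y) * X t (ω t))
          + ∑ y ∈ univ.filter (fun y => ¬ o y < o t), G y t * X y (ω y) * X t (ω t) :=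
        (Finset.sum_filter_add_sum_filter_not univ _ _).symm
      rw [h3]
      congr 1
      symm
      refine Finset.sum_subset (fun y hy => ?_) (fun y hy hy' => ?_)
      · rw [Finset.mem_filter] at hy ⊢
        exact ⟨hy.1, not_lt.2 hy.2.le⟩
      · rw [Finset.mem_filter] at hy hy'
        have h4 : o y = o t := by
          refine le_antisymm ?_ (not_lt.1 hy.2)
          by_contra h5
          exact hy' ⟨hy.1, not_le.1 h5⟩
        have h5 : y = t := o.injective h4
        rw [h5, hdiag, zero_mul, zero_mul]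
    have hsum1 : ∑ t, ∑ y ∈ univ.filter (fun y => o y < o t), G y t * X y (ω y) * X t (ω t)
        = ∑ t, X t (ω t) * prefA o G X t ω := by
      refine Finset.sum_congr rfl (fun t _ => ?_)
      unfold prefA
      rw [Finset.mul_sum]
      exact Finset.sum_congr rfl (fun y _ => by ring)
    have hsum2 : ∑ t, ∑ y ∈ univ.filter (fun y => o t < o y), G y t * X y (ω y) * X t (ω t)
        = ∑ t, ∑ y ∈ univ.filter (fun y => o y < o t), G y t * X y (ω y) * X t (ω t) := by
      have h6 : ∀ t, ∑ y ∈ univ.filter (fun y => o t < o y), G y t * X y (ω y) * X t (ω t)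
          = ∑ y, if o t < o y then G y t * X y (ω y) * X t (ω t) else 0 :=
        fun t => Finset.sum_filter _ _
      have h7 : ∀ t, ∑ y ∈ univ.filter (fun y => o y < o t), G y t * X y (ω y) * X t (ω t)
          = ∑ y, if o y < o t then G y t * X y (ω y) * X t (ω t) else 0 :=
        fun t => Finset.sum_filter _ _
      rw [Finset.sum_congr rfl (fun t _ => h6 t), Finset.sum_congr rfl (fun t _ => h7 t),
        Finset.sum_comm]
      refine Finset.sum_congr rfl (fun t _ => Finset.sum_congr rfl (fun y _ => ?_))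
      rw [hsymm t y]
      split_ifs <;> ring
    rw [Finset.sum_congr rfl (fun t _ => hlt t), Finset.sum_add_distrib, hsum2, hsum1]
    ring
  rw [h2] at h1
  have : 2 * (B * T) ≤ 2 * ∑ t, X t (ω t) * prefA o G X t ω := by linarith
  linarith

end Quad

end Pool.LarProb
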